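import Mathlib

namespace Pool.Agent.Lib.MP_7b3c84_co

/-- `T` is a triangulation of the cube `[0,1]^n` without new vertices; each simplex is given by
its vertex set. -/
structure IsTriangulation (n : ℕ) (T : Finset (Finset (Fin n → ℝ))) : Prop where
  card_eq : ∀ s ∈ T, s.card = n + 1
  indep : ∀ s ∈ T, AffineIndependent ℝ ((↑) : s → (Fin n → ℝ))
  vertex : ∀ s ∈ T, ∀ v ∈ s, ∀ i, v i = 0 ∨ v i = 1
  cover : ⋃ s ∈ T, convexHull ℝ (s : Set (Fin n → ℝ)) = Set.Icc 0 1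
  face : ∀ s ∈ T, ∀ t ∈ T, convexHull ℝ (s : Set (Fin n → ℝ)) ∩ convexHull ℝ (t : Set (Fin n → ℝ))
    = convexHull ℝ ((s : Set (Fin n → ℝ)) ∩ (t : Set (Fin n → ℝ)))

/-- the least size of a triangulation of the `n`-cube -/
noncomputable def minSize (n : ℕ) : ℕ := sInf {k | ∃ T, IsTriangulation n T ∧ T.card = k}

end Pool.Agent.Lib.MP_7b3c84_co
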