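import Mathlib

/-! One-dimensional integrals and a product formula for lower integrals. -/

namespace Pool.Agent.Lib.MP_7b3c84_co

open MeasureTheory Set Real
open scoped ENNReal Nat

lemma lint_prod_fin {n : ℕ} (f : Fin n → ℝ → ℝ≥0∞) (hf : ∀ i, Measurable (f i)) :
    ∫⁻ x : Fin n → ℝ, ∏ i, f i (x i) = ∏ i, ∫⁻ s, f i s := by
  induction n with
  | zero => simp [volume_pi]
  | succ n ih =>
    have hm := (volume_preserving_piFinSuccAbove (fun _ : Fin (n + 1) => ℝ) 0).symm
    rw [← hm.lintegral_comp_emb (MeasurableEquiv.measurableEmbedding _)]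
    simp only [MeasurableEquiv.piFinSuccAbove_symm_apply, Fin.insertNthEquiv,
      Fin.prod_univ_succ, Fin.insertNth_zero', Equiv.coe_fn_mk, Fin.cons_succ,
      Fin.cons_zero]
    rw [← ih (fun i => f i.succ) (fun i => hf _), Measure.volume_eq_prod,
      lintegral_prod_mul (f := f 0) (g := fun x : Fin n → ℝ => ∏ i, f i.succ (x i))
        (hf 0).aemeasurable]
    exact (Finset.measurable_prod _ fun i _ => (hf _).comp (measurable_pi_apply i)).aemeasurable

lemma lint_prod {ι : Type} [Fintype ι] (f : ι → ℝ → ℝ≥0∞) (hf : ∀ i, Measurable (f i)) :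
    ∫⁻ x : ι → ℝ, ∏ i, f i (x i) = ∏ i, ∫⁻ s, f i s := by
  let e := (Fintype.equivFin ι).symm
  rw [← (volume_measurePreserving_piCongrLeft (fun _ : ι => ℝ) e).lintegral_comp_emb
    (MeasurableEquiv.measurableEmbedding _)]
  simp_rw [← e.prod_comp, MeasurableEquiv.coe_piCongrLeft, Equiv.piCongrLeft_apply_apply]
  exact lint_prod_fin (fun i => f (e i)) fun i => hf _

lemma lint_gamma (k : ℕ) :
    ∫⁻ s : ℝ, ENNReal.ofReal (exp (-exp s) * exp s ^ (k + 1)) = (k ! : ℝ≥0∞) := by
  have h1 := lintegral_image_eq_lintegral_abs_deriv_mul (f := exp) (f' := exp) (s := univ)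
    MeasurableSet.univ (fun x _ => (hasDerivAt_exp x).hasDerivWithinAt) exp_injective.injOn
    (fun t => ENNReal.ofReal (exp (-t) * t ^ (((k : ℝ) + 1) - 1)))
  rw [image_univ, range_exp, Measure.restrict_univ] at h1
  have h2 : ∫⁻ t in Ioi (0 : ℝ), ENNReal.ofReal (exp (-t) * t ^ (((k : ℝ) + 1) - 1))
      = (k ! : ℝ≥0∞) := by
    rw [← ofReal_integral_eq_lintegral_ofReal (GammaIntegral_convergent (by positivity)),
      ← Gamma_eq_integral (by positivity), Gamma_nat_eq_factorial, ENNReal.ofReal_natCast]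
    filter_upwards [ae_restrict_mem measurableSet_Ioi] with t ht
    have : (0 : ℝ) < t := ht
    positivity
  rw [← h2, h1]
  refine lintegral_congr fun s => ?_
  rw [← ENNReal.ofReal_mul (abs_nonneg _), abs_of_pos (exp_pos s), add_sub_cancel_right,
    rpow_natCast]
  congr 1; ring

lemma lint_gamma_shift (k : ℕ) {c : ℝ} (hc : 0 < c) :
    ∫⁻ s : ℝ, ENNReal.ofReal (exp (-(exp s * c)) * (exp s * c) ^ (k + 1)) = (k ! : ℝ≥0∞) := by
  rw [← lint_gamma k, ← lintegral_add_right_eq_self
    (fun s : ℝ => ENNReal.ofReal (exp (-exp s) * exp s ^ (k + 1))) (log c)]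
  simp_rw [exp_add, exp_log hc]

/-- Gumbel density -/
noncomputable def gum (s : ℝ) : ℝ≥0∞ := ENNReal.ofReal (exp (-exp s) * exp s)

lemma gum_meas : Measurable gum := by unfold gum; fun_prop

lemma lint_gum : ∫⁻ s, gum s = 1 := by
  have := lint_gamma 0
  simpa [gum] using this

lemma lint_gum_Ici (c : ℝ) :
    ∫⁻ s, (Ici c).indicator gum s = ENNReal.ofReal (exp (-exp c)) := by
  rw [lintegral_indicator measurableSet_Ici, ← setLIntegral_congr Ioi_ae_eq_Ici]
  have hd : ∀ x ∈ Ici c, HasDerivAt (fun s => -exp (-exp s)) (exp (-exp x) * exp x) x := by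
    intro x _
    have h1 : HasDerivAt (fun s => exp (-exp s)) (exp (-exp x) * -exp x) x :=
      (hasDerivAt_exp x).neg.exp
    have h2 : HasDerivAt (fun s => -exp (-exp s)) (-(exp (-exp x) * -exp x)) x := h1.neg
    rwa [mul_neg, neg_neg] at h2
  have hp : ∀ x ∈ Ioi c, 0 ≤ exp (-exp x) * exp x := fun x _ => by positivity
  have ht : Filter.Tendsto (fun s => -exp (-exp s)) Filter.atTop (nhds 0) := by
    have := (tendsto_exp_neg_atTop_nhds_zero.comp tendsto_exp_atTop).neg
    simpa [Function.comp_def] using this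
  unfold gum
  rw [← ofReal_integral_eq_lintegral_ofReal (integrableOn_Ioi_deriv_of_nonneg' hd hp ht),
    integral_Ioi_of_hasDerivAt_of_nonneg' hd hp ht]
  · simp
  · exact Filter.Eventually.of_forall fun x => by positivity

lemma lint_pi : ∫⁻ x : ℝ, ENNReal.ofReal (exp (x / 2) / (1 + exp x)) = ENNReal.ofReal π := by
  have hd : ∀ x : ℝ, HasDerivAt (fun x => exp (x / 2)) (exp (x / 2) * (1 / 2)) x := fun x =>
    ((hasDerivAt_id x).div_const 2).exp
  have hi : Function.Injective fun x : ℝ => exp (x / 2) := by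
    intro x y hxy
    have := exp_injective hxy
    linarith
  have hr : range (fun x : ℝ => exp (x / 2)) = Ioi 0 := by
    ext t
    constructor
    · rintro ⟨x, rfl⟩; exact exp_pos _
    · intro ht
      exact ⟨2 * log t, by simp [exp_log ht]⟩
  have h1 := lintegral_image_eq_lintegral_abs_deriv_mul (s := univ)
    MeasurableSet.univ (fun x _ => (hd x).hasDerivWithinAt) hi.injOn
    (fun t => ENNReal.ofReal (2 * (1 + t ^ 2)⁻¹))
  rw [image_univ, hr, Measure.restrict_univ] at h1
  have h2 : ∫⁻ t in Ioi (0 : ℝ), ENNReal.ofReal (2 * (1 + t ^ 2)⁻¹) = ENNReal.ofReal π := by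
    rw [← ofReal_integral_eq_lintegral_ofReal
      ((integrable_inv_one_add_sq.const_mul 2).integrableOn), integral_const_mul,
      integral_Ioi_inv_one_add_sq]
    · congr 1; simp; ring
    · exact Filter.Eventually.of_forall fun x => by positivity
  rw [← h2, h1]
  refine lintegral_congr fun s => ?_
  rw [← ENNReal.ofReal_mul (abs_nonneg _), abs_of_pos (by positivity)]
  congr 1
  have : exp (s / 2) ^ 2 = exp s := by rw [← exp_nat_mul]; congr 1; push_cast; ring
  rw [this]; field_simp

end Pool.Agent.Lib.MP_7b3c84_co
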