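import Pool.Agent.Lib.MP_7b3c84_co.Regular
import Pool.Agent.Lib.MP_7b3c84_co.Ints

/-! Expected number of cells for independent Gumbel heights. -/

namespace Pool.Agent.Lib.MP_7b3c84_co

open MeasureTheory Set Real Matrix
open scoped ENNReal Nat

variable {ι V : Type} [Fintype ι] [DecidableEq ι] [Fintype V] [DecidableEq V]

lemma lint_lin (M : Matrix ι ι ℝ) (hd : M.det ≠ 0) (H : (ι → ℝ) → ℝ≥0∞) (hH : Measurable H) :
    ∫⁻ y, H y = ENNReal.ofReal |M.det| * ∫⁻ a, H (M *ᵥ a) := by
  have hm : Measurable (toLin' M) := (LinearMap.continuous_on_pi _).measurable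
  have h1 := lintegral_map (μ := volume) hH hm
  rw [Real.map_matrix_volume_pi_eq_smul_volume_pi hd, lintegral_smul_measure] at h1
  simp only [toLin'_apply] at h1
  rw [← h1, smul_eq_mul, ← mul_assoc, ← ENNReal.ofReal_mul (abs_nonneg _), ← abs_mul,
    mul_inv_cancel₀ hd]
  simp

omit [DecidableEq ι] in
lemma meas_dot (c : ι → ℝ) (M : Matrix ι ι ℝ) : Measurable fun y : ι → ℝ => c ⬝ᵥ (M *ᵥ y) := by
  unfold dotProduct mulVec dotProduct
  fun_prop

lemma prob_good (r : V → ι → ℝ) (τ : ι → V) :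
    ∫⁻ h : V → ℝ, (∏ v, gum (h v)) * {h | Good r h τ}.indicator 1 h ≤
      ENNReal.ofReal |(mat r τ).det| *
        ∫⁻ a : ι → ℝ, ENNReal.ofReal (exp (-∑ v, exp (r v ⬝ᵥ a)) * ∏ i, exp (r (τ i) ⬝ᵥ a)) := by
  classical
  by_cases hd : (mat r τ).det = 0
  · have : {h | Good r h τ} = ∅ := by
      ext h; simp [Good, hd]
    simp [this]
  have hinj := inj_of_det hd
  let W := {v // v ∉ Set.range τ}
  let e : ι ⊕ W ≃ V :=
    ((Equiv.ofInjective τ hinj).sumCongr (Equiv.refl W)).trans (Equiv.Set.sumCompl (Set.range τ))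
  have he1 : ∀ i, e (Sum.inl i) = τ i := fun i => rfl
  have hp1 := volume_measurePreserving_piCongrLeft (fun _ : V => ℝ) e
  have hp2 := volume_measurePreserving_sumPiEquivProdPi_symm (fun _ : ι ⊕ W => ℝ)
  rw [← hp1.lintegral_comp_emb (MeasurableEquiv.measurableEmbedding _),
    ← hp2.lintegral_comp_emb (MeasurableEquiv.measurableEmbedding _), Measure.volume_eq_prod]
  refine (lintegral_prod_le _).trans ?_
  set M := mat r τ with hM
  let H : (ι → ℝ) → ℝ≥0∞ := fun y => (∏ i, gum (y i)) *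
    ∏ w : W, ENNReal.ofReal (exp (-exp (r (e (Sum.inr w)) ⬝ᵥ (M⁻¹ *ᵥ y))))
  have hH : Measurable H := by
    refine Measurable.mul ?_ ?_
    · exact Finset.measurable_prod _ fun i _ => gum_meas.comp (measurable_pi_apply i)
    · refine Finset.measurable_prod _ fun w _ => ?_
      have := meas_dot (r (e (Sum.inr w))) M⁻¹
      fun_prop
  have step : ∀ y : ι → ℝ, ∫⁻ z : W → ℝ,
      (∏ v, gum ((MeasurableEquiv.piCongrLeft (fun _ : V => ℝ) e)
        ((MeasurableEquiv.sumPiEquivProdPi fun _ : ι ⊕ W => ℝ).symm (y, z)) v)) *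
      {h | Good r h τ}.indicator 1 ((MeasurableEquiv.piCongrLeft (fun _ : V => ℝ) e)
        ((MeasurableEquiv.sumPiEquivProdPi fun _ : ι ⊕ W => ℝ).symm (y, z))) ≤ H y := by
    intro y
    have hz : H y = ∫⁻ z : W → ℝ, (∏ i, gum (y i)) *
        ∏ w : W, (Ici (r (e (Sum.inr w)) ⬝ᵥ (M⁻¹ *ᵥ y))).indicator gum (z w) := by
      have hmz : Measurable fun z : W → ℝ =>
          ∏ w : W, (Ici (r (e (Sum.inr w)) ⬝ᵥ (M⁻¹ *ᵥ y))).indicator gum (z w) :=
        Finset.measurable_prod _ fun w _ =>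
          (gum_meas.indicator measurableSet_Ici).comp (measurable_pi_apply w)
      rw [lintegral_const_mul _ hmz,
        lint_prod (fun w => (Ici (r (e (Sum.inr w)) ⬝ᵥ (M⁻¹ *ᵥ y))).indicator gum)
          (fun w => gum_meas.indicator measurableSet_Ici)]
      simp only [lint_gum_Ici, H]
    rw [hz]
    refine lintegral_mono fun z => ?_
    set h := (MeasurableEquiv.piCongrLeft (fun _ : V => ℝ) e)
        ((MeasurableEquiv.sumPiEquivProdPi fun _ : ι ⊕ W => ℝ).symm (y, z)) with hh
    have hl : ∀ i, h (e (Sum.inl i)) = y i := fun i => by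
      simp only [hh, MeasurableEquiv.coe_piCongrLeft, Equiv.piCongrLeft_apply_apply]; rfl
    have hr : ∀ w, h (e (Sum.inr w)) = z w := fun w => by
      simp only [hh, MeasurableEquiv.coe_piCongrLeft, Equiv.piCongrLeft_apply_apply]; rfl
    by_cases hg : Good r h τ
    · have hy : (fun i => h (τ i)) = y := by funext i; rw [← he1, hl]
      rw [indicator_of_mem (show h ∈ {h | Good r h τ} from hg), Pi.one_apply, mul_one,
        ← e.prod_comp, Fintype.prod_sum_type]
      simp only [hl, hr]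
      refine le_of_eq ?_
      congr 1
      refine Finset.prod_congr rfl fun w _ => ?_
      rw [indicator_of_mem]
      have := hg.2 (e (Sum.inr w))
      rw [hr, itp, hy] at this
      exact this
    · rw [indicator_of_notMem (show h ∉ {h | Good r h τ} from hg)]
      simp
  refine (lintegral_mono step).trans ?_
  rw [lint_lin M hd H hH]
  refine le_of_eq ?_
  congr 1
  refine lintegral_congr fun a => ?_
  simp only [H, mulVec_mulVec, nonsing_inv_mul _ (isUnit_iff_ne_zero.2 hd), one_mulVec, gum]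
  rw [← ENNReal.ofReal_prod_of_nonneg (fun _ _ => by positivity),
    ← ENNReal.ofReal_prod_of_nonneg (fun _ _ => by positivity),
    ← ENNReal.ofReal_mul (by positivity)]
  congr 1
  simp only [hM, mat_mulVec]
  rw [← e.sum_comp, Fintype.sum_sum_type, Finset.prod_mul_distrib, ← exp_sum, ← exp_sum,
    ← exp_sum, neg_add, exp_add]
  simp only [he1, Finset.sum_neg_distrib]
  ring

omit [DecidableEq V] in
lemma ae_generic (r : V → ι → ℝ) : ∀ᵐ h : V → ℝ, Generic r h := by
  classical
  unfold Generic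
  rw [ae_all_iff]
  intro τ
  by_cases hd : (mat r τ).det = 0
  · simp [hd]
  simp only [ne_eq, hd, not_false_eq_true, forall_const]
  rw [ae_all_iff]
  intro v
  by_cases hv : v ∈ Set.range τ
  · simp [hv]
  simp only [hv, not_false_eq_true, forall_const]
  let L : (V → ℝ) →ₗ[ℝ] ℝ :=
    { toFun := fun h => r v ⬝ᵥ itp r τ h - h v
      map_add' := fun x y => by
        have : itp r τ (x + y) = itp r τ x + itp r τ y := by
          rw [itp, itp, itp, ← mulVec_add]; rfl
        rw [this, dotProduct_add, Pi.add_apply]; ring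
      map_smul' := fun c x => by
        have : itp r τ (c • x) = c • itp r τ x := by
          rw [itp, itp, ← mulVec_smul]; rfl
        rw [this, dotProduct_smul]; simp; ring }
  have hL : LinearMap.ker L ≠ ⊤ := by
    intro htop
    have h1 : Pi.single v (1 : ℝ) ∈ LinearMap.ker L := by rw [htop]; trivial
    have h2 : (fun i => (Pi.single v (1 : ℝ) : V → ℝ) (τ i)) = 0 := by
      funext i
      rw [Pi.single_eq_of_ne (fun hh => hv ⟨i, hh⟩)]; rfl
    rw [LinearMap.mem_ker] at h1
    simp [L, itp, h2] at h1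
  have h0 := Measure.addHaar_submodule (volume : Measure (V → ℝ)) _ hL
  rw [ae_iff]
  refine measure_mono_null (fun h hh => ?_) h0
  simp only [mem_ofPred_eq, not_not] at hh
  simp [L, hh]

omit [DecidableEq V] in
lemma meas_good (r : V → ι → ℝ) (τ : ι → V) : MeasurableSet {h : V → ℝ | Good r h τ} := by
  unfold Good
  rw [ofPred_and, ofPred_forall (ι := V)]
  refine (MeasurableSet.const _).inter (MeasurableSet.iInter fun v : V => ?_)
  refine measurableSet_le ?_ (measurable_pi_apply v)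
  unfold itp
  exact (meas_dot (r v) _).comp (measurable_pi_lambda _ fun i => measurable_pi_apply _)

open Classical in
/-- number of good ordered tuples -/
noncomputable def cnt (r : V → ι → ℝ) (h : V → ℝ) : ℕ :=
  (Finset.univ.filter fun τ : ι → V => Good r h τ).card

lemma exists_small (r : V → ι → ℝ) : ∃ h, Generic r h ∧ (cnt r h : ℝ≥0∞) ≤
    ∫⁻ a : ι → ℝ, ENNReal.ofReal (exp (-∑ v, exp (r v ⬝ᵥ a)) *
      ∑ τ : ι → V, |(mat r τ).det| * ∏ i, exp (r (τ i) ⬝ᵥ a)) := by
  classical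
  have hex : ∃ k, ∃ h, Generic r h ∧ cnt r h = k := by
    obtain ⟨h, hh⟩ := (ae_generic r).exists
    exact ⟨_, h, hh, rfl⟩
  obtain ⟨h0, hg0, hc0⟩ := Nat.find_spec hex
  refine ⟨h0, hg0, ?_⟩
  have hF : Measurable fun h : V → ℝ => ∏ v, gum (h v) :=
    Finset.measurable_prod _ fun i _ => gum_meas.comp (measurable_pi_apply i)
  have h1 : ∫⁻ h : V → ℝ, ∏ v, gum (h v) = 1 := by
    rw [lint_prod (fun _ => gum) fun _ => gum_meas]; simp [lint_gum]
  have hme : ∀ c : ι → ℝ, Measurable fun a : ι → ℝ => c ⬝ᵥ a := fun c => by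
    unfold dotProduct; fun_prop
  have hme2 : ∀ τ : ι → V, Measurable fun a : ι → ℝ =>
      ENNReal.ofReal (exp (-∑ v, exp (r v ⬝ᵥ a)) * ∏ i, exp (r (τ i) ⬝ᵥ a)) := fun τ => by
    refine Measurable.ennreal_ofReal (Measurable.mul ?_ ?_)
    · exact (Finset.measurable_sum _ fun v _ => (hme _).exp).neg.exp
    · exact Finset.measurable_prod _ fun v _ => (hme _).exp
  calc (cnt r h0 : ℝ≥0∞) = ∫⁻ h : V → ℝ, (∏ v, gum (h v)) * cnt r h0 := by
        rw [lintegral_mul_const _ hF, h1, one_mul]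
    _ ≤ ∫⁻ h : V → ℝ, ∑ τ : ι → V, (∏ v, gum (h v)) * {h | Good r h τ}.indicator 1 h := by
        refine lintegral_mono_ae ?_
        filter_upwards [ae_generic r] with h hh
        rw [← Finset.mul_sum]
        gcongr
        have : cnt r h0 ≤ cnt r h := hc0 ▸ Nat.find_min' hex ⟨h, hh, rfl⟩
        refine (Nat.cast_le.2 this).trans (le_of_eq ?_)
        rw [cnt, Finset.card_filter]
        push_cast
        refine Finset.sum_congr rfl fun τ _ => ?_
        simp [indicator]
    _ = ∑ τ : ι → V, ∫⁻ h : V → ℝ, (∏ v, gum (h v)) * {h | Good r h τ}.indicator 1 h :=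
        lintegral_finsetSum _ fun τ _ => hF.mul (measurable_one.indicator (meas_good r τ))
    _ ≤ ∑ τ : ι → V, ∫⁻ a : ι → ℝ, ENNReal.ofReal |(mat r τ).det| *
        ENNReal.ofReal (exp (-∑ v, exp (r v ⬝ᵥ a)) * ∏ i, exp (r (τ i) ⬝ᵥ a)) := by
        refine Finset.sum_le_sum fun τ _ => ?_
        rw [lintegral_const_mul _ (hme2 τ)]
        exact prob_good r τ
    _ = _ := by
        rw [← lintegral_finsetSum _ fun τ _ => (hme2 τ).const_mul _]
        refine lintegral_congr fun a => ?_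
        rw [Finset.mul_sum, ENNReal.ofReal_sum_of_nonneg (fun _ _ => by positivity)]
        refine Finset.sum_congr rfl fun τ _ => ?_
        rw [← ENNReal.ofReal_mul (abs_nonneg _)]
        congr 1; ring

omit [DecidableEq V] in
/-- second moment of the determinant for orthogonal weights -/
lemma sum_det_sq (u : V → ι → ℝ) (m : V → ℝ) (c : ι → ℝ)
    (ho : ∀ j k, ∑ v, m v * (u v j * u v k) = if j = k then c j else 0) :
    ∑ τ : ι → V, (∏ i, m (τ i)) * (mat u τ).det ^ 2 = (Fintype.card ι)! * ∏ j, c j := by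
  classical
  have h1 : ∀ τ : ι → V, (∏ i, m (τ i)) * (mat u τ).det ^ 2 =
      ∑ σ : Equiv.Perm ι, ∑ ρ : Equiv.Perm ι, ((Equiv.Perm.sign σ : ℤ) : ℝ) *
        ((Equiv.Perm.sign ρ : ℤ) : ℝ) * ∏ i, (m (τ i) * (u (τ i) (σ i) * u (τ i) (ρ i))) := by
    intro τ
    rw [← det_transpose, det_apply', sq, Finset.sum_mul_sum, Finset.mul_sum]
    refine Finset.sum_congr rfl fun σ _ => ?_
    rw [Finset.mul_sum]
    refine Finset.sum_congr rfl fun ρ _ => ?_
    simp only [Finset.prod_mul_distrib, transpose_apply, mat, of_apply]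
    ring
  simp_rw [h1]
  rw [Finset.sum_comm]
  have h2 : ∀ σ : Equiv.Perm ι, ∑ τ : ι → V, ∑ ρ : Equiv.Perm ι, ((Equiv.Perm.sign σ : ℤ) : ℝ) *
        ((Equiv.Perm.sign ρ : ℤ) : ℝ) * ∏ i, (m (τ i) * (u (τ i) (σ i) * u (τ i) (ρ i)))
        = ∏ j, c j := by
    intro σ
    rw [Finset.sum_comm]
    simp_rw [← Finset.mul_sum]
    have h3 : ∀ ρ : Equiv.Perm ι, ∑ τ : ι → V, ∏ i, (m (τ i) * (u (τ i) (σ i) * u (τ i) (ρ i)))
        = ∏ i, if σ i = ρ i then c (σ i) else 0 := by
      intro ρ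
      simp_rw [← ho]
      rw [Finset.prod_univ_sum]
      simp
    simp_rw [h3]
    rw [Finset.sum_eq_single σ]
    · simp only [if_true]
      rw [Equiv.prod_comp σ c, ← Int.cast_mul, ← Units.val_mul, Int.units_mul_self]
      simp
    · intro ρ _ hρ
      obtain ⟨i, hi⟩ : ∃ i, σ i ≠ ρ i := by
        by_contra hh
        push Not at hh
        exact hρ (Equiv.ext fun i => (hh i).symm)
      rw [Finset.prod_eq_zero (Finset.mem_univ i) (if_neg hi), mul_zero]
    · simp
  simp_rw [h2]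
  simp [Fintype.card_perm]

end Pool.Agent.Lib.MP_7b3c84_co
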