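import Pool.Agent.Lib.MP_7b3c84_co.Global

/-! Statements for the minimal size. -/

namespace Pool.Agent.Lib.MP_7b3c84_co

open Real Filter Topology
open scoped Nat

lemma minSize_spec (n : ℕ) : ∃ T, IsTriangulation n T ∧ T.card = minSize n := by
  obtain ⟨T, hT, -⟩ := upper n
  exact Nat.sInf_mem (s := {k | ∃ T, IsTriangulation n T ∧ T.card = k}) ⟨_, T, hT, rfl⟩

lemma minSize_le {n : ℕ} {T : Finset (Finset (Fin n → ℝ))} (hT : IsTriangulation n T) :
    minSize n ≤ T.card := Nat.sInf_le ⟨T, hT, rfl⟩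

lemma minSize_upper (n : ℕ) : (minSize n : ℝ) ≤ π ^ n * √((n ! : ℝ) / (n + 1)) := by
  obtain ⟨T, hT, h⟩ := upper n
  exact (Nat.cast_le.2 (minSize_le hT)).trans h

lemma fact_le (n : ℕ) (hn : 1 ≤ n) : (n ! : ℝ) ≤ exp 1 * √n * (n / exp 1) ^ n := by
  obtain ⟨m, rfl⟩ : ∃ m, n = m + 1 := ⟨n - 1, by omega⟩
  have h1 := Stirling.stirlingSeq'_antitone (Nat.zero_le m)
  simp only [Function.comp, Nat.succ_eq_add_one, zero_add, Stirling.stirlingSeq_one] at h1
  rw [Stirling.stirlingSeq, div_le_iff₀ (by positivity), sqrt_mul (by norm_num)] at h1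
  refine h1.trans (le_of_eq ?_)
  field_simp

lemma minSize_upper' : ∀ᶠ n : ℕ in atTop, (minSize n : ℝ) ≤ (π / √(exp 1) * √n) ^ n := by
  filter_upwards [eventually_ge_atTop 9] with n hn
  refine (minSize_upper n).trans ?_
  have hn' : (9 : ℝ) ≤ n := by exact_mod_cast hn
  have h1 : (3 : ℝ) ≤ √n := le_sqrt_of_sq_le (by linarith)
  have h2 : √(n : ℝ) * √(n : ℝ) = n := mul_self_sqrt (by positivity)
  have h3 : exp 1 ≤ 3 := by linarith [exp_one_lt_d9]
  have h4 : (n ! : ℝ) / (n + 1) ≤ (n / exp 1) ^ n := by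
    rw [div_le_iff₀ (by positivity)]
    refine (fact_le n (by omega)).trans ?_
    rw [mul_comm]
    gcongr
    nlinarith
  have h5 : π / √(exp 1) * √n = π * √(n / exp 1) := by
    rw [sqrt_div (by positivity)]; ring
  rw [h5, mul_pow]
  gcongr
  refine sqrt_le_iff.2 ⟨by positivity, h4.trans (le_of_eq ?_)⟩
  rw [← pow_mul, mul_comm n 2, pow_mul, sq_sqrt (by positivity)]

lemma minSize_lower {c : ℝ} (hc0 : 0 ≤ c) (hc : c < π / exp 1) :
    ∀ᶠ n : ℕ in atTop, (c * √n) ^ n ≤ minSize n := by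
  filter_upwards [lower hc0 hc] with n hn
  obtain ⟨T, hT, h⟩ := minSize_spec n
  exact h ▸ hn T hT

lemma log_order : (fun n : ℕ => log (minSize n) - n / 2 * log n) =O[atTop] fun n : ℕ => (n : ℝ) := by
  have h1 : (1 : ℝ) < π / exp 1 := by
    rw [lt_div_iff₀ (exp_pos 1)]
    linarith [exp_one_lt_d9, pi_gt_three]
  refine Asymptotics.IsBigO.of_bound |log (π / √(exp 1))| ?_
  filter_upwards [minSize_lower zero_le_one h1, minSize_upper', eventually_ge_atTop 1]
    with n a1 a2 hn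
  have hn' : (0 : ℝ) < n := by exact_mod_cast hn
  have hs : 0 < √(n : ℝ) := sqrt_pos.2 hn'
  have b0 : (0 : ℝ) < (1 * √n) ^ n := by positivity
  have b1 := log_le_log b0 a1
  have b2 := log_le_log (b0.trans_le a1) a2
  rw [log_pow, one_mul, log_sqrt hn'.le] at b1
  rw [log_pow, log_mul (by positivity) hs.ne', log_sqrt hn'.le] at b2
  rw [Real.norm_eq_abs, Real.norm_of_nonneg hn'.le, abs_of_nonneg (by linarith)]
  have := le_abs_self (log (π / √(exp 1)))
  nlinarith

end Pool.Agent.Lib.MP_7b3c84_co
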