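import Pool.Agent.Lib.MP_7b3c84_co.Lower

/-! The lower bound for the number of simplices. -/

namespace Pool.Agent.Lib.MP_7b3c84_co

open MeasureTheory Real Matrix Finset Filter Topology
open scoped ENNReal Nat

variable {n : ℕ}

lemma exists_tuple {T : Finset (Finset (Fin n → ℝ))} (hT : IsTriangulation n T)
    {s : Finset (Fin n → ℝ)} (hs : s ∈ T) : ∃ τ : Fin (n + 1) → Fin n → Bool,
      (mat row τ).det ≠ 0 ∧ (s : Set (Fin n → ℝ)) = Set.range fun i => pt (τ i) := by
  classical
  let e : Fin (n + 1) ≃ s := (s.equivFinOfCardEq (hT.card_eq s hs)).symm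
  let τ : Fin (n + 1) → Fin n → Bool := fun i j => decide ((e i : Fin n → ℝ) j = 1)
  have hp : ∀ i, pt (τ i) = e i := fun i => by
    funext j
    rcases hT.vertex s hs (e i) (e i).2 j with h | h <;> simp [pt, τ, h]
  refine ⟨τ, ?_, ?_⟩
  · rw [Ne, ← Matrix.exists_vecMul_eq_zero_iff]
    rintro ⟨l, hl, h0⟩
    apply hl
    have hi : AffineIndependent ℝ fun i => pt (τ i) := by
      simp only [hp]
      exact (hT.indep s hs).comp_embedding e.toEmbedding
    have h1 : ∑ i, l i • row (τ i) = 0 := by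
      rw [← h0]; funext k; simp [vecMul, dotProduct, mat, Finset.sum_apply]
    rw [sum_row] at h1
    funext i
    refine (affineIndependent_iff.1 hi) univ l (congrFun h1 0) ?_ i (mem_univ i)
    funext j
    exact congrFun h1 j.succ
  · simp only [hp]
    ext x
    constructor
    · intro hx; exact ⟨e.symm ⟨x, hx⟩, by simp⟩
    · rintro ⟨i, rfl⟩; exact (e i).2

lemma cone_mass {u : ℝ → ℝ≥0∞} (hu : Measurable u) (η : ℝ) :
    ENNReal.ofReal η * (∫⁻ t, u t) ^ n ≤ ∫⁻ y : Fin (n + 1) → ℝ, cone u η y := by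
  have hm := (volume_preserving_piFinSuccAbove (fun _ : Fin (n + 1) => ℝ) 0).symm
  rw [← hm.lintegral_comp_emb (MeasurableEquiv.measurableEmbedding _), Measure.volume_eq_prod,
    lintegral_prod (fun a => cone u η ((MeasurableEquiv.piFinSuccAbove (fun _ => ℝ) 0).symm a))
      ((cone_meas hu η).comp (MeasurableEquiv.measurable _)).aemeasurable]
  simp only [MeasurableEquiv.piFinSuccAbove_symm_apply, Fin.insertNthEquiv,
      Fin.insertNth_zero', Equiv.coe_fn_mk, cone, Fin.cons_zero, Fin.cons_succ]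
  have h1 : ENNReal.ofReal η * (∫⁻ t, u t) ^ n =
      ∫⁻ s : ℝ, (Set.Icc 1 (1 + η)).indicator 1 s * (∫⁻ t, u t) ^ n := by
    rw [lintegral_mul_const _ (measurable_one.indicator measurableSet_Icc),
      lintegral_indicator_one measurableSet_Icc]
    simp
  rw [h1]
  refine lintegral_mono fun s => ?_
  by_cases hs : s ∈ Set.Icc 1 (1 + η)
  swap
  · simp [Set.indicator_of_notMem hs]
  have hs0 : 0 < s := by linarith [hs.1]
  simp only [Set.indicator_of_mem hs, Pi.one_apply, one_mul]
  rw [lint_prod (fun _ t => u (t / s)) fun _ => hu.comp (by fun_prop)]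
  simp only [Finset.prod_const, card_univ, Fintype.card_fin]
  refine pow_le_pow_left' ?_ n
  have h2 := lintegral_map (μ := volume) hu (measurable_mul_const s⁻¹)
  rw [Real.map_volume_mul_right (inv_ne_zero hs0.ne'), lintegral_smul_measure, inv_inv,
    abs_of_pos hs0, smul_eq_mul] at h2
  simp only [div_eq_mul_inv]
  rw [← h2]
  refine le_mul_of_one_le_left' ?_
  rw [← ENNReal.ofReal_one]
  exact ENNReal.ofReal_le_ofReal hs.1

lemma card_mass {T : Finset (Finset (Fin n → ℝ))} (hT : IsTriangulation n T)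
    {u : ℝ → ℝ≥0∞} (hu : Measurable u) (hu1 : ∀ t, u t ≠ 0 → 0 ≤ t ∧ t ≤ 1) {η : ℝ} {C : ℝ≥0∞}
    (hC : ∀ τ : Fin (n + 1) → Fin n → Bool, (mat row τ).det ≠ 0 →
      ∫⁻ y, cone u η y * (pos τ).indicator 1 y ≤ C) :
    ENNReal.ofReal η * (∫⁻ t, u t) ^ n ≤ T.card * C := by
  classical
  choose! τ hτ using fun s (hs : s ∈ T) => exists_tuple hT hs
  refine (cone_mass hu η).trans ?_
  calc _ ≤ ∫⁻ y, ∑ s ∈ T, cone u η y * (pos (τ s)).indicator 1 y := by
        refine lintegral_mono fun y => ?_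
        by_cases h0 : cone u η y = 0
        · simp [h0]
        have h1 := mul_ne_zero_iff.1 h0
        have hy : y 0 ∈ Set.Icc 1 (1 + η) := by
          by_contra hh; exact h1.1 (Set.indicator_of_notMem hh _)
        have hy0 : 0 < y 0 := by linarith [hy.1]
        have hx : (fun j : Fin n => y j.succ / y 0) ∈ Set.Icc (0 : Fin n → ℝ) 1 :=
          ⟨fun j => (hu1 _ (Finset.prod_ne_zero_iff.1 h1.2 j (mem_univ j))).1,
            fun j => (hu1 _ (Finset.prod_ne_zero_iff.1 h1.2 j (mem_univ j))).2⟩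
        rw [← hT.cover] at hx
        obtain ⟨s, hs, hx⟩ := Set.mem_iUnion₂.1 hx
        rw [(hτ s hs).2, mem_hull] at hx
        obtain ⟨l, hl0, hl1, hl⟩ := hx
        have hdet : ((mat row (τ s))ᵀ).det ≠ 0 := by rw [det_transpose]; exact (hτ s hs).1
        have hy2 : y = (mat row (τ s))ᵀ *ᵥ (y 0 • l) := by
          funext k
          refine Fin.cases ?_ (fun j => ?_) k
          · simp [mulVec, dotProduct, mat, row, ← Finset.mul_sum, hl1]
          · have := congrFun hl j
            simp only [Finset.sum_apply, Pi.smul_apply, smul_eq_mul] at this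
            rw [eq_div_iff hy0.ne', Finset.sum_mul] at this
            rw [← this]
            simp only [mulVec, dotProduct, mat, row, transpose_apply, of_apply, Fin.cons_succ,
              Pi.smul_apply, smul_eq_mul]
            exact Finset.sum_congr rfl fun i _ => by ring
        have hp : y ∈ pos (τ s) := by
          intro i
          rw [hy2, mulVec_mulVec, nonsing_inv_mul _ (isUnit_iff_ne_zero.2 hdet), one_mulVec]
          exact mul_nonneg hy0.le (hl0 i)
        refine le_trans ?_ (Finset.single_le_sum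
          (f := fun s => cone u η y * (pos (τ s)).indicator 1 y) (fun _ _ => by positivity) hs)
        simp [Set.indicator_of_mem hp]
    _ = ∑ s ∈ T, ∫⁻ y, cone u η y * (pos (τ s)).indicator 1 y :=
        lintegral_finsetSum _ fun s _ =>
          (cone_meas hu η).mul (measurable_one.indicator (pos_meas _))
    _ ≤ ∑ _s ∈ T, C := Finset.sum_le_sum fun s hs => hC _ (hτ s hs).1
    _ = _ := by simp

/-- values at `1` and `0` of the tangent line at `p` -/
noncomputable def tang (p : ℝ) (b : Bool) : ℝ :=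
  -(log p + log (1 - p) - 2 + if b then p⁻¹ else (1 - p)⁻¹) / 2

lemma tang_adm {p : ℝ} (h0 : 0 < p) (h1 : p < 1) (t : ℝ) (_ht0 : 0 ≤ t) (ht1 : t ≤ 1) :
    exp (t * tang p true + (1 - t) * tang p false) * √(t * (1 - t)) ≤ 1 := by
  have h1' : 0 < 1 - p := by linarith
  have a1 : t ≤ exp (log p + t / p - 1) := by
    rw [add_sub_assoc, exp_add, exp_log h0]
    have := add_one_le_exp (t / p - 1)
    calc t = p * (t / p - 1 + 1) := by field_simp; ring
      _ ≤ _ := by gcongr
  have a2 : 1 - t ≤ exp (log (1 - p) + (1 - t) / (1 - p) - 1) := by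
    rw [add_sub_assoc, exp_add, exp_log h1']
    have := add_one_le_exp ((1 - t) / (1 - p) - 1)
    calc 1 - t = (1 - p) * ((1 - t) / (1 - p) - 1 + 1) := by field_simp; ring
      _ ≤ _ := by gcongr
  set x := t * tang p true + (1 - t) * tang p false with hx
  have a3 : √(t * (1 - t)) ≤ exp (-x) := by
    refine sqrt_le_iff.2 ⟨by positivity, ?_⟩
    calc _ ≤ exp (log p + t / p - 1) * exp (log (1 - p) + (1 - t) / (1 - p) - 1) :=
          mul_le_mul a1 a2 (by linarith) (by positivity)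
      _ = _ := by
          rw [← exp_add, sq, ← exp_add]
          congr 1
          simp only [hx, tang, if_true, Bool.false_eq_true, if_false]
          field_simp; ring
  calc _ ≤ exp x * exp (-x) := by gcongr
    _ = 1 := by rw [← exp_add]; simp

lemma tang_self {p : ℝ} (h0 : 0 < p) (h1 : p < 1) :
    exp (p * tang p true + (1 - p) * tang p false) * √(p * (1 - p)) = 1 := by
  have h1' : 0 < 1 - p := by linarith
  have : p * tang p true + (1 - p) * tang p false = -(log (p * (1 - p)) / 2) := by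
    rw [log_mul h0.ne' h1'.ne']
    simp only [tang, if_true, Bool.false_eq_true, if_false]
    field_simp; ring
  rw [this, ← log_sqrt (by positivity), exp_neg, exp_log (by positivity)]
  field_simp

lemma exists_test {I : ℝ} (hI : I < π) : ∃ (F : Finset ℝ) (u : ℝ → ℝ≥0∞), Measurable u ∧
    (∀ p ∈ F, 0 < p ∧ p < 1) ∧ (∀ t, u t ≠ 0 → 0 ≤ t ∧ t ≤ 1) ∧
    (∀ t, ∃ p : F, u t ≤ ENNReal.ofReal (exp (t * tang p true + (1 - t) * tang p false))) ∧
    ENNReal.ofReal I ≤ ∫⁻ t, u t := by
  classical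
  have hc : ContinuousAt (fun e : ℝ => (1 - e) * (arcsin (2 * (1 - e) - 1) - arcsin (2 * e - 1))) 0 :=
    by fun_prop
  have hv : I < (1 - 0) * (arcsin (2 * (1 - 0) - 1) - arcsin (2 * 0 - 1)) := by
    norm_num; simpa using hI
  have hev := (hc.eventually (lt_mem_nhds hv)).and (gt_mem_nhds (show (0 : ℝ) < 1 / 2 by norm_num))
  obtain ⟨e, ⟨he1, he2⟩, he0⟩ := ((hev.filter_mono (nhdsWithin_le_nhds (s := Set.Ioi 0))).and
    self_mem_nhdsWithin).exists
  have he0 : 0 < e := he0
  have hU : ∀ p ∈ Set.Icc e (1 - e), {t | (1 - e) <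
      exp (t * tang p true + (1 - t) * tang p false) * √(t * (1 - t))} ∈ 𝓝 p := by
    intro p hp
    refine IsOpen.mem_nhds (isOpen_lt continuous_const (by fun_prop)) ?_
    rw [Set.mem_ofPred_eq, tang_self (by linarith [hp.1]) (by linarith [hp.2])]
    linarith
  obtain ⟨F, hF1, hF2⟩ := isCompact_Icc.elim_nhds_subcover _ hU
  have hne : ∃ p, p ∈ F := by
    obtain ⟨p, hp, -⟩ := Set.mem_iUnion₂.1 (hF2 (show e ∈ Set.Icc e (1 - e) from
      ⟨le_rfl, by linarith⟩))
    exact ⟨p, hp⟩
  refine ⟨F, (Set.Icc e (1 - e)).indicator fun t => ENNReal.ofReal ((1 - e) * (√(t * (1 - t)))⁻¹),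
    Measurable.indicator (by fun_prop) measurableSet_Icc,
    fun p hp => ⟨by linarith [(hF1 p hp).1], by linarith [(hF1 p hp).2]⟩, fun t ht => ?_,
    fun t => ?_, ?_⟩
  · have : t ∈ Set.Icc e (1 - e) := by
      by_contra hh; exact ht (Set.indicator_of_notMem hh _)
    exact ⟨by linarith [this.1], by linarith [this.2]⟩
  · by_cases ht : t ∈ Set.Icc e (1 - e)
    · obtain ⟨p, hp, hpt⟩ := Set.mem_iUnion₂.1 (hF2 ht)
      refine ⟨⟨p, hp⟩, ?_⟩
      rw [Set.indicator_of_mem ht]
      refine ENNReal.ofReal_le_ofReal ?_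
      have : 0 < √(t * (1 - t)) := sqrt_pos.2 (mul_pos (by linarith [ht.1]) (by linarith [ht.2]))
      rw [← div_eq_mul_inv, div_le_iff₀ this]
      exact le_of_lt hpt
    · obtain ⟨p, hp⟩ := hne
      exact ⟨⟨p, hp⟩, by simp [Set.indicator_of_notMem ht]⟩
  · have hcont : ContinuousOn (fun t : ℝ => (√(t * (1 - t)))⁻¹) (Set.Icc e (1 - e)) := by
      refine ContinuousOn.inv₀ (by fun_prop) fun t ht => ?_
      exact (sqrt_pos.2 (mul_pos (by linarith [ht.1]) (by linarith [ht.2]))).ne'
    have hle : e ≤ 1 - e := by linarith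
    have hint : ∫ t in e..(1 - e), (√(t * (1 - t)))⁻¹ =
        arcsin (2 * (1 - e) - 1) - arcsin (2 * e - 1) := by
      refine intervalIntegral.integral_eq_sub_of_hasDerivAt (f := fun t => arcsin (2 * t - 1))
        (fun t ht => ?_) (ContinuousOn.intervalIntegrable (by rwa [Set.uIcc_of_le hle]))
      rw [Set.uIcc_of_le hle] at ht
      have hd : HasDerivAt (fun t : ℝ => 2 * t - 1) 2 t := by
        simpa using ((hasDerivAt_id t).const_mul 2).sub_const 1
      have h2 := (hasDerivAt_arcsin (x := 2 * t - 1) (by linarith [ht.1])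
        (by linarith [ht.2])).comp t hd
      have h3 : 1 / √(1 - (2 * t - 1) ^ 2) * 2 = (√(t * (1 - t)))⁻¹ := by
        rw [show 1 - (2 * t - 1) ^ 2 = 2 ^ 2 * (t * (1 - t)) by ring, sqrt_mul (by norm_num),
          sqrt_sq (by norm_num)]
        field_simp
      rw [h3] at h2
      exact h2
    rw [lintegral_indicator measurableSet_Icc, ← ofReal_integral_eq_lintegral_ofReal
      (f := fun t : ℝ => (1 - e) * (√(t * (1 - t)))⁻¹)
      ((continuousOn_const.mul hcont).integrableOn_Icc)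
      (Filter.Eventually.of_forall fun t => by
        have : 0 ≤ 1 - e := by linarith
        exact mul_nonneg this (by positivity)),
      integral_Icc_eq_integral_Ioc, ← intervalIntegral.integral_of_le hle,
      intervalIntegral.integral_const_mul, hint]
    exact ENNReal.ofReal_le_ofReal he1.le

lemma ev_log (C : ℝ) {ε : ℝ} (hε : 0 < ε) : ∀ᶠ n : ℕ in atTop, C + log n ≤ ε * √n := by
  have h1 := (isLittleO_log_rpow_atTop (show (0 : ℝ) < 1 / 2 by norm_num)).bound (half_pos hε)
  have h2 : ∀ᶠ x : ℝ in atTop, C ≤ ε / 2 * √x :=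
    (tendsto_sqrt_atTop.const_mul_atTop (half_pos hε)).eventually_ge_atTop C
  refine tendsto_natCast_atTop_atTop.eventually (p := fun x : ℝ => C + log x ≤ ε * √x) ?_
  filter_upwards [h1, h2, eventually_ge_atTop 0] with x a1 a2 a3
  rw [← sqrt_eq_rpow, Real.norm_of_nonneg (sqrt_nonneg x)] at a1
  have := (le_abs_self _).trans a1
  linarith

theorem lower {c : ℝ} (hc0 : 0 ≤ c) (hc : c < π / exp 1) :
    ∀ᶠ n : ℕ in atTop, ∀ T, IsTriangulation n T → (c * √n) ^ n ≤ T.card := by
  obtain ⟨δ, hδ0, hδ1, hδ⟩ : ∃ δ : ℝ, 0 < δ ∧ δ < 1 ∧ c * exp 1 * exp (4 * δ) < π := by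
    have h1 : ContinuousAt (fun δ : ℝ => c * exp 1 * exp (4 * δ)) 0 := by fun_prop
    have h2 : c * exp 1 * exp (4 * 0) < π := by
      rw [lt_div_iff₀ (exp_pos 1)] at hc; simpa using hc
    have h3 := (h1.eventually (gt_mem_nhds h2)).and (gt_mem_nhds (show (0 : ℝ) < 1 by norm_num))
    obtain ⟨δ, ⟨a1, a2⟩, a3⟩ := ((h3.filter_mono (nhdsWithin_le_nhds (s := Set.Ioi 0))).and
      self_mem_nhdsWithin).exists
    exact ⟨δ, a3, a2, a1⟩
  obtain ⟨F, u, hu, hF, hu1, hu2, hI⟩ := exists_test hδ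
  let B : ℝ := 1 + ∑ p : F, (|tang p true| + |tang p false|)
  have hB1 : 1 ≤ B := le_add_of_nonneg_right (by positivity)
  have hB : ∀ (p : F) b, |tang p b| ≤ B := by
    intro p b
    have := Finset.single_le_sum (f := fun p : F => |tang p true| + |tang p false|)
      (fun _ _ => by positivity) (mem_univ p)
    have a1 := abs_nonneg (tang p true)
    have a2 := abs_nonneg (tang p false)
    cases b <;> simp only [B] <;> linarith
  have hK : 0 < Fintype.card F := by
    obtain ⟨p, -⟩ := hu2 0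
    exact Fintype.card_pos_iff.2 ⟨p⟩
  have hK' : (1 : ℝ) ≤ Fintype.card F := by exact_mod_cast hK
  set t : ℝ := δ / (8 * B ^ 2) with ht
  have ht0 : 0 < t := by positivity
  filter_upwards [ev_log (log 4) (show 0 < δ * t / 2 by positivity),
    ev_log (log (Fintype.card F)) (half_pos hδ0), ev_log (log 2 + 2) hδ0,
    eventually_ge_atTop 1] with n hA hBn hC hn T hT
  have hn' : (1 : ℝ) ≤ n := by exact_mod_cast hn
  have hs1 : 1 ≤ √(n : ℝ) := one_le_sqrt.2 hn'
  have hss : √(n : ℝ) * √(n : ℝ) = n := mul_self_sqrt (by positivity)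
  set m := ⌈√(n : ℝ)⌉₊ with hm
  have hm1 : √(n : ℝ) ≤ m := Nat.le_ceil _
  have hm2 : (m : ℝ) ≤ 2 * √n := by
    have := Nat.ceil_lt_add_one (sqrt_nonneg (n : ℝ)); linarith
  have hm0 : 0 < m := by exact_mod_cast (show (0 : ℝ) < m by linarith)
  have htB : t * (2 * B) ≤ 1 := by
    rw [ht, div_mul_eq_mul_div, div_le_one (by positivity)]; nlinarith
  have hd : n * (log (2 * (n + 1 : ℕ)) + m * (t * (2 * B)) ^ 2) ≤ δ * n * (m * t) := by
    have e1 : (t * (2 * B)) ^ 2 = δ * t / 2 := by rw [ht]; field_simp; ring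
    have e2 : log (2 * (n + 1 : ℕ)) ≤ log 4 + log n := by
      rw [← log_mul (by norm_num) (by positivity)]
      refine log_le_log (by positivity) ?_
      push_cast; linarith
    have e3 : δ * t / 2 * √n ≤ δ * t / 2 * m := by gcongr
    rw [e1]
    calc _ ≤ n * (δ * t / 2 * m + m * (δ * t / 2)) := by gcongr; linarith
      _ = _ := by ring
  have key := card_mass hT hu hu1 (η := 1 / (n + 1)) fun τ hτ =>
    simplex_mass (a := fun p : F => tang p) hB
      (fun p => tang_adm (hF p p.2).1 (hF p p.2).2) hu hu2 hn hm0 ht0 htB hd (by positivity) hτ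
  have key2 := (mul_le_mul' le_rfl (pow_le_pow_left' hI n)).trans key
  rw [← ENNReal.ofReal_pow (by positivity), ← ENNReal.ofReal_mul (by positivity),
    ← ENNReal.ofReal_natCast, ← ENNReal.ofReal_mul (by positivity),
    ENNReal.ofReal_le_ofReal_iff (by positivity)] at key2
  have b1 : ((n : ℝ) * Fintype.card F) ^ m ≤ exp (δ * n) := by
    rw [← exp_log (show (0 : ℝ) < n * Fintype.card F by positivity), ← exp_nat_mul,
      log_mul (by positivity) (by positivity)]
    refine exp_le_exp.2 ?_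
    have := log_nonneg hn'
    have := log_nonneg hK'
    calc _ ≤ (2 * √n) * (δ / 2 * √n) := by gcongr; linarith
      _ = δ * (√n * √n) := by ring
      _ = _ := by rw [hss]
  have b2 : (1 + 1 / ((n : ℝ) + 1)) ^ (n + 1) ≤ exp 1 := by
    calc _ ≤ exp (1 / ((n : ℝ) + 1)) ^ (n + 1) := by
          gcongr; linarith [add_one_le_exp (1 / ((n : ℝ) + 1))]
      _ = _ := by rw [← exp_nat_mul]; congr 1; push_cast; field_simp
  have b3 : ((n : ℝ) + 1) * exp 1 ^ 2 ≤ exp (δ * n) := by
    have : (n : ℝ) + 1 ≤ exp (log 2 + log n) := by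
      rw [exp_add, exp_log (by norm_num), exp_log (by positivity)]; linarith
    calc _ ≤ exp (log 2 + log n) * exp 1 ^ 2 := by gcongr
      _ = exp (log 2 + 2 + log n) := by rw [← exp_nat_mul, ← exp_add]; congr 1; push_cast; ring
      _ ≤ _ := exp_le_exp.2 (hC.trans (by gcongr; nlinarith))
  have b4 : √(n : ℝ) ^ n ≤ √(n + 1) ^ (n + 1) := by
    calc _ ≤ √((n : ℝ) + 1) ^ n := by gcongr; linarith
      _ ≤ _ := pow_le_pow_right₀ (one_le_sqrt.2 (by linarith)) (by omega)
  set X := exp (δ * n) with hX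
  have hX0 : 0 < X := exp_pos _
  have c1 : (c * exp 1 * exp (4 * δ)) ^ n = c ^ n * exp 1 ^ n * X ^ 4 := by
    rw [mul_pow, mul_pow, hX, ← exp_nat_mul (4 * δ), ← exp_nat_mul (δ * n)]
    congr 2; push_cast; ring
  have c2 : exp (2 * (δ * n)) = X ^ 2 := by rw [hX, ← exp_nat_mul]; norm_num
  rw [c1, c2, div_pow, mul_pow (1 + 1 / ((n : ℝ) + 1))] at key2
  have hR : (0 : ℝ) < √(n : ℝ) ^ n := by positivity
  have key3 : 1 / (n + 1) * (c ^ n * exp 1 ^ n * X ^ 4) ≤
      T.card * (X * X ^ 2 * (exp 1 * exp 1 ^ (n + 1) / √(n : ℝ) ^ n)) := by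
    refine key2.trans ?_
    gcongr
  have hE : 0 < exp 1 ^ n * X ^ 4 := by positivity
  refine le_of_mul_le_mul_right ?_ hE
  have c3 : (c * √n) ^ n * (exp 1 ^ n * X ^ 4) =
      (1 / (n + 1) * (c ^ n * exp 1 ^ n * X ^ 4)) * ((n + 1) * √(n : ℝ) ^ n) := by
    rw [mul_pow]; field_simp
  rw [c3]
  calc _ ≤ (T.card * (X * X ^ 2 * (exp 1 * exp 1 ^ (n + 1) / √(n : ℝ) ^ n))) *
        ((n + 1) * √(n : ℝ) ^ n) := by gcongr
    _ = T.card * (exp 1 ^ n * X ^ 3 * ((n + 1) * exp 1 ^ 2)) := by field_simp; ring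
    _ ≤ T.card * (exp 1 ^ n * X ^ 3 * X) := by gcongr
    _ = _ := by ring

end Pool.Agent.Lib.MP_7b3c84_co
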