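import Pool.Agent.Lib.MP_7b3c84_co.Net

/-! The mass of one simplex under a product test function. -/

namespace Pool.Agent.Lib.MP_7b3c84_co

open MeasureTheory Real Matrix Finset
open scoped ENNReal Nat

variable {n : ℕ} {K : Type}

def th (a : K → Bool → ℝ) (τ : Fin (n + 1) → Fin n → Bool) (k : Fin n → K) (i : Fin (n + 1)) : ℝ :=
  ∑ j, a (k j) (τ i j)

lemma th_sum (a : K → Bool → ℝ) (τ : Fin (n + 1) → Fin n → Bool) (k : Fin n → K)
    (l : Fin (n + 1) → ℝ) (h1 : ∑ i, l i = 1) :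
    ∑ i, l i * th a τ k i = ∑ j, ((∑ i, l i * pt (τ i) j) * a (k j) true +
      (1 - ∑ i, l i * pt (τ i) j) * a (k j) false) := by
  simp only [th, Finset.mul_sum]
  rw [Finset.sum_comm]
  refine Finset.sum_congr rfl fun j _ => ?_
  rw [← h1, ← Finset.sum_sub_distrib, Finset.sum_mul, Finset.sum_mul, ← Finset.sum_add_distrib]
  refine Finset.sum_congr rfl fun i _ => ?_
  simp only [pt]
  cases τ i j <;> simp

lemma q_mem (τ : Fin (n + 1) → Fin n → Bool) (l : Fin (n + 1) → ℝ) (h0 : ∀ i, 0 ≤ l i)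
    (h1 : ∑ i, l i = 1) (j : Fin n) :
    0 ≤ ∑ i, l i * pt (τ i) j ∧ ∑ i, l i * pt (τ i) j ≤ 1 := by
  constructor
  · refine Finset.sum_nonneg fun i _ => mul_nonneg (h0 i) ?_
    simp only [pt]; split_ifs <;> norm_num
  · rw [← h1]
    refine Finset.sum_le_sum fun i _ => ?_
    have := h0 i
    simp only [pt]; split_ifs <;> linarith

lemma close_sum {N : ℕ} {x y l : Fin N → ℝ} {d : ℝ} (h0 : ∀ i, 0 ≤ l i) (h1 : ∑ i, l i = 1)
    (h : ∀ i, x i ≤ y i + d) : ∑ i, l i * x i ≤ ∑ i, l i * y i + d := by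
  calc _ ≤ ∑ i, l i * (y i + d) :=
        Finset.sum_le_sum fun i _ => mul_le_mul_of_nonneg_left (h i) (h0 i)
    _ = _ := by simp only [mul_add, Finset.sum_add_distrib, ← Finset.sum_mul, h1, one_mul]

lemma lint_exp_neg {b : ℝ} (hb : 0 < b) :
    ∫⁻ x : ℝ, (Set.Ici (0 : ℝ)).indicator (fun x => ENNReal.ofReal (exp (-b * x))) x
      = ENNReal.ofReal b⁻¹ := by
  rw [lintegral_indicator measurableSet_Ici, ← setLIntegral_congr Ioi_ae_eq_Ici,
    ← ofReal_integral_eq_lintegral_ofReal (integrableOn_exp_mul_Ioi (by linarith) 0)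
      (Filter.Eventually.of_forall fun x => by positivity),
    integral_exp_mul_Ioi (by linarith)]
  congr 1
  simp

lemma piece {a : K → Bool → ℝ}
    (adm : ∀ k t, 0 ≤ t → t ≤ 1 → exp (t * a k true + (1 - t) * a k false) * √(t * (1 - t)) ≤ 1)
    (τ : Fin (n + 1) → Fin n → Bool) (k : Fin n → K) (θ : Fin (n + 1) → ℝ) {d η : ℝ} (hη : 0 ≤ η)
    (hc : ∀ i, θ i ≤ th a τ k i + d) :
    ∃ G : (Fin (n + 1) → ℝ) → ℝ≥0∞, Measurable G ∧
      (∀ g : Fin (n + 1) → ℝ, (∀ i, 0 ≤ g i) → ∑ i, g i ∈ Set.Icc 1 (1 + η) →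
        ENNReal.ofReal (exp (∑ i, g i / (∑ i, g i) * θ i)) ≤ G g) ∧
      ENNReal.ofReal |(mat row τ).det| * ∫⁻ g, G g ≤
        ENNReal.ofReal (exp d * ((1 + η) * exp 1 / √(n + 1)) ^ (n + 1)) := by
  obtain ⟨s, hs, hs1⟩ := exists_tilt θ
  have hcp : ∀ i, 0 < s - θ i := fun i => sub_pos.2 (hs i)
  have hm : ∀ i, Measurable ((Set.Ici (0 : ℝ)).indicator
      fun x => ENNReal.ofReal (exp (-((s - θ i) / (1 + η)) * x))) := fun i =>
    Measurable.indicator (by fun_prop) measurableSet_Ici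
  refine ⟨fun g => ENNReal.ofReal (exp s) * ∏ i, (Set.Ici (0 : ℝ)).indicator
      (fun x => ENNReal.ofReal (exp (-((s - θ i) / (1 + η)) * x))) (g i), ?_, ?_, ?_⟩
  · exact Measurable.const_mul
      (Finset.measurable_prod _ fun i _ => (hm i).comp (measurable_pi_apply i)) _
  · intro g hg hS
    simp only [Set.indicator_of_mem (show g _ ∈ Set.Ici (0 : ℝ) from hg _)]
    rw [← ENNReal.ofReal_prod_of_nonneg (fun _ _ => by positivity),
      ← ENNReal.ofReal_mul (by positivity), ← exp_sum, ← exp_add]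
    refine ENNReal.ofReal_le_ofReal (exp_le_exp.2 ?_)
    set S := ∑ i, g i with hSd
    have hS0 : 0 < S := by linarith [hS.1]
    have e1 : ∑ i, g i / S * θ i = s + ∑ i, -((s - θ i) / S) * g i := by
      have : ∀ i, g i / S * θ i = s / S * g i + -((s - θ i) / S) * g i := fun i => by
        field_simp; ring
      simp only [this, Finset.sum_add_distrib, ← Finset.mul_sum, ← hSd]
      congr 1; field_simp
    rw [e1]
    gcongr with i
    · exact hg i
    · exact (hcp i).le
    · exact hS.2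
  · rw [lintegral_const_mul' _ _ ENNReal.ofReal_ne_top, lint_prod _ hm]
    simp only [lint_exp_neg (div_pos (hcp _) (show 0 < 1 + η by linarith))]
    rw [← ENNReal.ofReal_prod_of_nonneg (fun i _ => by have := hcp i; positivity),
      ← ENNReal.ofReal_mul (by positivity), ← ENNReal.ofReal_mul (by positivity)]
    refine ENNReal.ofReal_le_ofReal ?_
    set μ : Fin (n + 1) → ℝ := fun i => (s - θ i)⁻¹ with hμ
    have hμ0 : ∀ i, 0 < μ i := fun i => inv_pos.2 (hcp i)
    have e1 : ∏ i, ((s - θ i) / (1 + η))⁻¹ = (1 + η) ^ (n + 1) * ((∏ i, √(μ i)) * ∏ i, √(μ i)) := by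
      rw [← Finset.prod_mul_distrib]
      simp only [mul_self_sqrt (hμ0 _).le, inv_div]
      simp only [div_eq_mul_inv, Finset.prod_mul_distrib, hμ]
      simp
    have e2 : s = ∑ i, μ i * θ i + (n + 1) := by
      have : ∀ i, μ i * θ i = s * μ i - 1 := fun i => by
        have := hcp i
        simp only [hμ]; field_simp; ring
      simp only [this, Finset.sum_sub_distrib, ← Finset.mul_sum, hs1]
      simp
    have e3 := close_sum (fun i => (hμ0 i).le) hs1 hc
    rw [th_sum a τ k μ hs1] at e3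
    have e4 := hadamard_w τ μ (fun i => (hμ0 i).le) hs1
    have e5 := prod_sqrt_le μ (fun i => (hμ0 i).le) hs1
    set q : Fin n → ℝ := fun j => ∑ i, μ i * pt (τ i) j with hq
    have e6 : exp (∑ j, (q j * a (k j) true + (1 - q j) * a (k j) false)) *
        ∏ j, √(q j * (1 - q j)) ≤ 1 := by
      rw [exp_sum, ← Finset.prod_mul_distrib]
      refine Finset.prod_le_one (fun _ _ => by positivity) fun j _ => ?_
      have := q_mem τ μ (fun i => (hμ0 i).le) hs1 j
      exact adm _ _ this.1 this.2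
    set E := exp (∑ j, (q j * a (k j) true + (1 - q j) * a (k j) false)) with hE
    have e7 : exp s ≤ E * exp d * exp 1 ^ (n + 1) := by
      rw [hE, ← exp_nat_mul, ← exp_add, ← exp_add]
      refine exp_le_exp.2 ?_
      push_cast
      linarith
    set P := ∏ i, √(μ i) with hP
    have hP0 : 0 ≤ P := by positivity
    have hR : (0 : ℝ) < √(n + 1) ^ (n + 1) := by positivity
    have e8 : P ≤ (√(n + 1) ^ (n + 1))⁻¹ := by
      rw [← one_div, le_div_iff₀ hR]; exact e5
    have e9 : E * (|(mat row τ).det| * P) ≤ 1 :=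
      le_trans (mul_le_mul_of_nonneg_left e4 (by positivity)) e6
    rw [e1, div_pow, mul_pow]
    calc _ ≤ |(mat row τ).det| * ((E * exp d * exp 1 ^ (n + 1)) *
          ((1 + η) ^ (n + 1) * (P * (√(n + 1) ^ (n + 1))⁻¹))) := by gcongr
      _ = (E * (|(mat row τ).det| * P)) *
          (exp d * ((1 + η) ^ (n + 1) * exp 1 ^ (n + 1) / √(n + 1) ^ (n + 1))) := by ring
      _ ≤ 1 * (exp d * ((1 + η) ^ (n + 1) * exp 1 ^ (n + 1) / √(n + 1) ^ (n + 1))) := by gcongr
      _ = _ := one_mul _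

/-- test function on the cone over the cube -/
noncomputable def cone (u : ℝ → ℝ≥0∞) (η : ℝ) (y : Fin (n + 1) → ℝ) : ℝ≥0∞ :=
  (Set.Icc 1 (1 + η)).indicator 1 (y 0) * ∏ j : Fin n, u (y j.succ / y 0)

lemma cone_meas {u : ℝ → ℝ≥0∞} (hu : Measurable u) (η : ℝ) : Measurable (cone (n := n) u η) := by
  refine Measurable.mul ((measurable_one.indicator measurableSet_Icc).comp (measurable_pi_apply 0))
    (Finset.measurable_prod _ fun j _ => hu.comp ?_)
  fun_prop

def pos (τ : Fin (n + 1) → Fin n → Bool) : Set (Fin (n + 1) → ℝ) :=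
  {y | ∀ i, 0 ≤ (((mat row τ)ᵀ)⁻¹ *ᵥ y) i}

lemma pos_meas (τ : Fin (n + 1) → Fin n → Bool) : MeasurableSet (pos τ) := by
  unfold pos
  rw [Set.ofPred_forall]
  refine MeasurableSet.iInter fun i => measurableSet_le measurable_const ?_
  unfold mulVec dotProduct
  fun_prop

lemma simplex_mass [Fintype K] {a : K → Bool → ℝ} {B : ℝ} (hB : ∀ k b, |a k b| ≤ B)
    (adm : ∀ k t, 0 ≤ t → t ≤ 1 → exp (t * a k true + (1 - t) * a k false) * √(t * (1 - t)) ≤ 1)
    {u : ℝ → ℝ≥0∞} (hu : Measurable u)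
    (hu2 : ∀ t, ∃ k, u t ≤ ENNReal.ofReal (exp (t * a k true + (1 - t) * a k false)))
    {m : ℕ} {t d η : ℝ} (hn : 0 < n) (hm : 0 < m) (ht : 0 < t) (htB : t * (2 * B) ≤ 1)
    (hd : n * (log (2 * (n + 1 : ℕ)) + m * (t * (2 * B)) ^ 2) ≤ d * (m * t)) (hη : 0 ≤ η)
    {τ : Fin (n + 1) → Fin n → Bool} (hτ : (mat row τ).det ≠ 0) :
    ∫⁻ y, cone u η y * (pos τ).indicator 1 y ≤
      ENNReal.ofReal (((n : ℝ) * Fintype.card K) ^ m * exp (2 * d) *
        ((1 + η) * exp 1 / √(n + 1)) ^ (n + 1)) := by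
  classical
  have hn' : (0 : ℝ) < n := by exact_mod_cast hn
  have hm' : (0 : ℝ) < m := by exact_mod_cast hm
  let R := (Fin m → Fin n) × (Fin m → K)
  let θ : R → Fin (n + 1) → ℝ := fun r i => (n / m : ℝ) * ∑ s, a (r.2 s) (τ i (r.1 s))
  have hG : ∀ r : R, ∃ G : (Fin (n + 1) → ℝ) → ℝ≥0∞, Measurable G ∧
      ((∃ k, ∀ i, θ r i ≤ th a τ k i + d) →
      ∀ g : Fin (n + 1) → ℝ, (∀ i, 0 ≤ g i) → ∑ i, g i ∈ Set.Icc 1 (1 + η) →
        ENNReal.ofReal (exp (∑ i, g i / (∑ i, g i) * θ r i)) ≤ G g) ∧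
      ENNReal.ofReal |(mat row τ).det| * ∫⁻ g, G g ≤
        ENNReal.ofReal (exp d * ((1 + η) * exp 1 / √(n + 1)) ^ (n + 1)) := by
    intro r
    by_cases hk : ∃ k, ∀ i, θ r i ≤ th a τ k i + d
    · obtain ⟨k, hk⟩ := hk
      obtain ⟨G, h1, h2, h3⟩ := piece adm τ k (θ r) hη hk
      exact ⟨G, h1, fun _ => h2, h3⟩
    · exact ⟨fun _ => 0, measurable_const, fun h => absurd h hk, by simp⟩
  choose G hG1 hG2 hG3 using hG
  have happ : ∀ k : Fin n → K, ∃ r : R, ∀ i, |θ r i - th a τ k i| ≤ d := by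
    intro k
    have hth : ∀ i, |th a τ k i / n| ≤ B := fun i => by
      rw [abs_div, abs_of_pos hn', div_le_iff₀ hn']
      refine (Finset.abs_sum_le_sum_abs _ _).trans ?_
      refine (Finset.sum_le_sum fun j _ => hB _ _).trans ?_
      simp [mul_comm]
    obtain ⟨J, hJ⟩ := sample (m := m) hn (fun j i => a (k j) (τ i j) - th a τ k i / n) ht htB
      (fun j i => (abs_sub _ _).trans (by linarith [hB (k j) (τ i j), hth i]))
      (fun i => by
        rw [Finset.sum_sub_distrib]; simp only [th]; simp; field_simp; ring)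
    refine ⟨(J, k ∘ J), fun i => ?_⟩
    have h1 := hJ i
    have h2 : θ (J, k ∘ J) i - th a τ k i =
        n / m * ∑ s, (a (k (J s)) (τ i (J s)) - th a τ k i / n) := by
      simp only [θ, Finset.sum_sub_distrib, Function.comp]
      simp; field_simp
    rw [h2, abs_mul, abs_of_pos (by positivity), div_mul_eq_mul_div, div_le_iff₀ hm']
    refine le_of_mul_le_mul_right ?_ ht
    nlinarith
  have hdet : ((mat row τ)ᵀ).det ≠ 0 := by rwa [det_transpose]
  rw [lint_lin _ hdet (fun y => cone u η y * (pos τ).indicator 1 y)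
    ((cone_meas hu η).mul (measurable_one.indicator (pos_meas τ))), det_transpose]
  have hpt : ∀ g : Fin (n + 1) → ℝ,
      cone u η ((mat row τ)ᵀ *ᵥ g) * (pos τ).indicator 1 ((mat row τ)ᵀ *ᵥ g) ≤
        ENNReal.ofReal (exp d) * ∑ r, G r g := by
    intro g
    by_cases hp : (mat row τ)ᵀ *ᵥ g ∈ pos τ
    swap
    · simp [Set.indicator_of_notMem hp]
    have hg : ∀ i, 0 ≤ g i := by
      simpa only [pos, Set.mem_ofPred_eq, mulVec_mulVec,
        nonsing_inv_mul _ (isUnit_iff_ne_zero.2 hdet), one_mulVec] using hp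
    have y0 : ((mat row τ)ᵀ *ᵥ g) 0 = ∑ i, g i := by
      simp [mulVec, dotProduct, mat, row]
    have yj : ∀ j : Fin n, ((mat row τ)ᵀ *ᵥ g) j.succ / (∑ i, g i) =
        ∑ i, g i / (∑ i, g i) * pt (τ i) j := fun j => by
      simp only [mulVec, dotProduct, mat, row, transpose_apply, of_apply, Fin.cons_succ,
        Finset.sum_div]
      exact Finset.sum_congr rfl fun i _ => by ring
    rw [Set.indicator_of_mem hp, cone, y0]
    by_cases hS : ∑ i, g i ∈ Set.Icc 1 (1 + η)
    swap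
    · simp [Set.indicator_of_notMem hS]
    rw [Set.indicator_of_mem hS]
    simp only [yj, Pi.one_apply, one_mul, mul_one]
    have hS0 : 0 < ∑ i, g i := by linarith [hS.1]
    have hl1 : ∑ i, g i / (∑ i, g i) = 1 := by rw [← Finset.sum_div, div_self hS0.ne']
    have hl0 : ∀ i, 0 ≤ g i / (∑ i, g i) := fun i => div_nonneg (hg i) hS0.le
    choose k hk using fun j : Fin n => hu2 (∑ i, g i / (∑ i, g i) * pt (τ i) j)
    obtain ⟨r, hr⟩ := happ k
    have h1 := hG2 r ⟨k, fun i => by linarith [(abs_le.1 (hr i)).2]⟩ g hg hS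
    have h2 := close_sum (x := th a τ k) (y := θ r) (d := d) hl0 hl1
      fun i => by linarith [(abs_le.1 (hr i)).1]
    calc _ ≤ ∏ j, ENNReal.ofReal (exp ((∑ i, g i / (∑ i, g i) * pt (τ i) j) * a (k j) true +
          (1 - ∑ i, g i / (∑ i, g i) * pt (τ i) j) * a (k j) false)) :=
          Finset.prod_le_prod' fun j _ => hk j
      _ = ENNReal.ofReal (exp (∑ i, g i / (∑ i, g i) * th a τ k i)) := by
          rw [← ENNReal.ofReal_prod_of_nonneg (fun _ _ => by positivity), ← exp_sum,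
            th_sum a τ k _ hl1]
      _ ≤ ENNReal.ofReal (exp d) * ENNReal.ofReal (exp (∑ i, g i / (∑ i, g i) * θ r i)) := by
          rw [← ENNReal.ofReal_mul (by positivity), ← exp_add]
          exact ENNReal.ofReal_le_ofReal (exp_le_exp.2 (by linarith))
      _ ≤ _ := by
          gcongr
          exact h1.trans (Finset.single_le_sum (f := fun r => G r g) (fun _ _ => by positivity)
            (mem_univ r))
  calc _ ≤ ENNReal.ofReal |(mat row τ).det| * ∫⁻ g, ENNReal.ofReal (exp d) * ∑ r, G r g :=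
        mul_le_mul' le_rfl (lintegral_mono hpt)
    _ = ENNReal.ofReal (exp d) * ∑ r, ENNReal.ofReal |(mat row τ).det| * ∫⁻ g, G r g := by
        rw [lintegral_const_mul' _ _ ENNReal.ofReal_ne_top,
          lintegral_finsetSum _ fun r _ => hG1 r, ← Finset.mul_sum]
        ring
    _ ≤ ENNReal.ofReal (exp d) * ∑ _r : R,
        ENNReal.ofReal (exp d * ((1 + η) * exp 1 / √(n + 1)) ^ (n + 1)) := by
        gcongr with r; exact hG3 r
    _ = _ := by
        rw [← ENNReal.ofReal_sum_of_nonneg (fun _ _ => by positivity),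
          ← ENNReal.ofReal_mul (by positivity)]
        congr 1
        simp only [R, Finset.sum_const, card_univ, Fintype.card_prod, Fintype.card_pi,
          Finset.prod_const, Fintype.card_fin, nsmul_eq_mul, two_mul d, exp_add]
        push_cast
        rw [mul_pow]; ring

end Pool.Agent.Lib.MP_7b3c84_co
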