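import Pool.Agent.Lib.MP_7b3c84_co.Tri

/-! Tools for the lower bound: Hadamard inequality, sampling lemma. -/

namespace Pool.Agent.Lib.MP_7b3c84_co

open Real Matrix Finset
open scoped Nat

lemma hadamard {N : ℕ} (A : Matrix (Fin N) (Fin N) ℝ) :
    |A.det| ≤ ∏ j, √(∑ i, A i j ^ 2) := by
  have : Fact (Module.finrank ℝ (EuclideanSpace ℝ (Fin N)) = N) := ⟨by simp⟩
  let b := EuclideanSpace.basisFun (Fin N) ℝ
  let v : Fin N → EuclideanSpace ℝ (Fin N) := fun j => WithLp.toLp 2 fun i => A i j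
  have h1 := Orientation.abs_volumeForm_apply_le b.toBasis.orientation v
  rw [Orientation.volumeForm_robust' _ b, Module.Basis.det_apply] at h1
  have h2 : b.toBasis.toMatrix v = A := by
    ext i j
    simp [Module.Basis.toMatrix_apply, b, v]
  rw [h2] at h1
  refine h1.trans (le_of_eq ?_)
  refine Finset.prod_congr rfl fun j _ => ?_
  rw [EuclideanSpace.norm_eq]
  simp [v]

variable {n : ℕ}

/-- weighted Hadamard bound for 0/1 simplices -/
lemma hadamard_w (τ : Fin (n + 1) → Fin n → Bool) (μ : Fin (n + 1) → ℝ) (h0 : ∀ i, 0 ≤ μ i)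
    (h1 : ∑ i, μ i = 1) :
    |(mat row τ).det| * ∏ i, √(μ i) ≤
      ∏ j, √((∑ i, μ i * pt (τ i) j) * (1 - ∑ i, μ i * pt (τ i) j)) := by
  set q : Fin n → ℝ := fun j => ∑ i, μ i * pt (τ i) j with hq
  have := hadamard (diagonal (fun i => √(μ i)) * mat (crow q) τ)
  rw [det_mul, det_diagonal, ← det_crow, abs_mul, abs_of_nonneg (by positivity), mul_comm,
    Fin.prod_univ_succ (f := fun j => √(∑ i, _))] at this
  refine this.trans (le_of_eq ?_)
  simp only [diagonal_mul, mul_pow, sq_sqrt (h0 _), mat, of_apply, crow, Fin.cons_zero,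
    Fin.cons_succ, mul_one, h1, sqrt_one, one_mul, Pi.sub_apply]
  refine Finset.prod_congr rfl fun j _ => ?_
  congr 1
  have : ∀ i, μ i * (pt (τ i) j - q j) ^ 2 =
      (1 - 2 * q j) * (μ i * pt (τ i) j) + q j ^ 2 * μ i := by
    intro i; simp only [pt]; split_ifs <;> ring
  simp only [this, Finset.sum_add_distrib, ← Finset.mul_sum, h1]
  change (1 - 2 * q j) * q j + _ = q j * (1 - q j)
  ring

lemma exp_le_quad {x : ℝ} (hx : |x| ≤ 1) : exp x ≤ 1 + x + x ^ 2 := by
  have := (abs_le.1 (abs_exp_sub_one_sub_id_le hx)).2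
  linarith

lemma sample {N m : ℕ} (hn : 0 < n) (z : Fin n → Fin N → ℝ) {t B : ℝ} (ht : 0 < t)
    (htB : t * B ≤ 1) (hz : ∀ j i, |z j i| ≤ B) (h0 : ∀ i, ∑ j, z j i = 0) :
    ∃ J : Fin m → Fin n, ∀ i, t * |∑ s, z (J s) i| ≤ log (2 * N) + m * (t * B) ^ 2 := by
  have hn' : (0 : ℝ) < n := by exact_mod_cast hn
  have mom : ∀ (i : Fin N) (e : ℝ), |e| = t →
      ∑ J : Fin m → Fin n, exp (e * ∑ s, z (J s) i) ≤ (n : ℝ) ^ m * exp (m * (t * B) ^ 2) := by
    intro i e he
    have e1 : ∑ J : Fin m → Fin n, exp (e * ∑ s, z (J s) i) = (∑ j, exp (e * z j i)) ^ m := by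
      have := Finset.prod_univ_sum (fun _ : Fin m => (univ : Finset (Fin n)))
        (fun _ j => exp (e * z j i))
      simp only [Fintype.piFinset_univ, Finset.prod_const, card_univ, Fintype.card_fin] at this
      rw [this]
      refine Finset.sum_congr rfl fun J _ => ?_
      rw [Finset.mul_sum, exp_sum]
    have e2 : ∑ j, exp (e * z j i) ≤ n * exp ((t * B) ^ 2) := by
      have hb : ∀ j, |e * z j i| ≤ t * B := fun j => by
        rw [abs_mul, he]; exact mul_le_mul_of_nonneg_left (hz j i) ht.le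
      calc ∑ j, exp (e * z j i) ≤ ∑ j, (1 + e * z j i + (t * B) ^ 2) := by
            refine Finset.sum_le_sum fun j _ => (exp_le_quad ((hb j).trans htB)).trans ?_
            have := sq_le_sq' (abs_le.1 (hb j)).1 (abs_le.1 (hb j)).2
            linarith
        _ = n * (1 + (t * B) ^ 2) := by
            simp only [Finset.sum_add_distrib, ← Finset.mul_sum, h0]
            simp; ring
        _ ≤ _ := by
            have := add_one_le_exp ((t * B) ^ 2)
            gcongr; linarith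
    rw [e1, exp_nat_mul, ← mul_pow]
    gcongr
  have tot : ∑ J : Fin m → Fin n, ∑ i, (exp (t * ∑ s, z (J s) i) + exp (-t * ∑ s, z (J s) i)) ≤
      ∑ _J : Fin m → Fin n, 2 * N * exp (m * (t * B) ^ 2) := by
    rw [Finset.sum_comm]
    simp only [Finset.sum_add_distrib]
    rw [← Finset.sum_add_distrib]
    calc _ ≤ ∑ _i : Fin N, 2 * ((n : ℝ) ^ m * exp (m * (t * B) ^ 2)) := by
          refine Finset.sum_le_sum fun i _ => ?_
          have a1 := mom i t (abs_of_pos ht)
          have a2 := mom i (-t) (by rw [abs_neg, abs_of_pos ht])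
          linarith
      _ = _ := by simp; ring
  have : Nonempty (Fin n) := ⟨⟨0, hn⟩⟩
  obtain ⟨J, -, hJ⟩ := Finset.exists_le_of_sum_le univ_nonempty tot
  refine ⟨J, fun i => ?_⟩
  have hN : (0 : ℝ) < N := by exact_mod_cast Fin.pos i
  have h1 := (Finset.single_le_sum (f := fun i => exp (t * ∑ s, z (J s) i) +
    exp (-t * ∑ s, z (J s) i)) (fun i _ => by positivity) (mem_univ i)).trans hJ
  have h2 : exp (t * |∑ s, z (J s) i|) ≤ exp (log (2 * N) + m * (t * B) ^ 2) := by
    rw [exp_add, exp_log (by positivity)]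
    refine le_trans ?_ h1
    have p1 := exp_pos (t * ∑ s, z (J s) i)
    have p2 := exp_pos (-t * ∑ s, z (J s) i)
    rcases abs_cases (∑ s, z (J s) i) with h | h
    · rw [h.1]; linarith
    · rw [h.1, mul_neg, ← neg_mul]; linarith
  exact exp_le_exp.1 h2

/-- the tilting parameter -/
lemma exists_tilt {N : ℕ} (θ : Fin (N + 1) → ℝ) :
    ∃ s, (∀ i, θ i < s) ∧ ∑ i, (s - θ i)⁻¹ = 1 := by
  obtain ⟨i0, -, hi0⟩ := Finset.exists_max_image univ θ univ_nonempty
  have hc : ContinuousOn (fun s => ∑ i, (s - θ i)⁻¹) (Set.Icc (θ i0 + 1) (θ i0 + (N + 1))) := by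
    refine continuousOn_finsetSum _ fun i _ => ContinuousOn.inv₀ (by fun_prop) fun s hs => ?_
    have := hi0 i (mem_univ i)
    have := hs.1
    linarith
  have hN : (0 : ℝ) ≤ N := by positivity
  have h1 : (1 : ℝ) ∈ Set.Icc (∑ i, (θ i0 + (N + 1) - θ i)⁻¹) (∑ i, (θ i0 + 1 - θ i)⁻¹) := by
    constructor
    · calc _ ≤ ∑ _i : Fin (N + 1), ((N : ℝ) + 1)⁻¹ := by
            refine Finset.sum_le_sum fun i _ => ?_
            have := hi0 i (mem_univ i)
            exact inv_anti₀ (by positivity) (by linarith)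
        _ = 1 := by simp; field_simp
    · calc (1 : ℝ) = (θ i0 + 1 - θ i0)⁻¹ := by simp
        _ ≤ _ := Finset.single_le_sum (f := fun i => (θ i0 + 1 - θ i)⁻¹) (fun i _ => by
            have := hi0 i (mem_univ i)
            exact inv_nonneg.2 (by linarith)) (mem_univ i0)
  obtain ⟨s, hs, he⟩ := intermediate_value_Icc' (by linarith) hc h1
  refine ⟨s, fun i => ?_, he⟩
  have := hi0 i (mem_univ i)
  have := hs.1
  linarith

lemma prod_sqrt_le {N : ℕ} (μ : Fin (N + 1) → ℝ) (h0 : ∀ i, 0 ≤ μ i) (h1 : ∑ i, μ i = 1) :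
    (∏ i, √(μ i)) * √(N + 1) ^ (N + 1) ≤ 1 := by
  have e1 : ∏ i, (((N : ℝ) + 1) * μ i) ≤ 1 := by
    calc _ ≤ ∏ i, exp (((N : ℝ) + 1) * μ i - 1) := by
          refine Finset.prod_le_prod (fun i _ => by have := h0 i; positivity) fun i _ => ?_
          have := add_one_le_exp (((N : ℝ) + 1) * μ i - 1)
          linarith
      _ = 1 := by
          rw [← exp_sum, Finset.sum_sub_distrib, ← Finset.mul_sum, h1]; simp
  have e2 : (∏ i, √(μ i)) * √(N + 1) ^ (N + 1) = √(∏ i, (((N : ℝ) + 1) * μ i)) := by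
    rw [Real.sqrt_prod _ fun i _ => by have := h0 i; positivity]
    simp only [sqrt_mul (show (0 : ℝ) ≤ N + 1 by positivity), Finset.prod_mul_distrib]
    simp [mul_comm]
  rw [e2]
  exact sqrt_le_one.2 e1

end Pool.Agent.Lib.MP_7b3c84_co
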