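import Mathlib

/-! Regular triangulations of a finite vector configuration from generic heights. -/

namespace Pool.Agent.Lib.MP_7b3c84_co

open Matrix Finset

variable {ι V : Type} [Fintype ι] [DecidableEq ι] [Fintype V] [DecidableEq V]

/-- matrix whose rows are the vectors selected by `τ` -/
def mat (r : V → ι → ℝ) (τ : ι → V) : Matrix ι ι ℝ := Matrix.of fun i => r (τ i)

/-- the linear form interpolating the heights on `τ` -/
noncomputable def itp (r : V → ι → ℝ) (τ : ι → V) (h : V → ℝ) : ι → ℝ :=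
  (mat r τ)⁻¹ *ᵥ (fun i => h (τ i))

def Good (r : V → ι → ℝ) (h : V → ℝ) (τ : ι → V) : Prop :=
  (mat r τ).det ≠ 0 ∧ ∀ v, r v ⬝ᵥ itp r τ h ≤ h v

def Generic (r : V → ι → ℝ) (h : V → ℝ) : Prop :=
  ∀ τ : ι → V, (mat r τ).det ≠ 0 → ∀ v, v ∉ Set.range τ → r v ⬝ᵥ itp r τ h ≠ h v

omit [Fintype V] [DecidableEq V] [DecidableEq ι] in
lemma mat_mulVec (r : V → ι → ℝ) (τ : ι → V) (a : ι → ℝ) (i : ι) :
    (mat r τ *ᵥ a) i = r (τ i) ⬝ᵥ a := rfl

omit [Fintype V] [DecidableEq V] in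
lemma itp_tight {r : V → ι → ℝ} {τ : ι → V} (hd : (mat r τ).det ≠ 0) (h : V → ℝ) (i : ι) :
    r (τ i) ⬝ᵥ itp r τ h = h (τ i) := by
  rw [← mat_mulVec, itp, mulVec_mulVec, mul_nonsing_inv _ (isUnit_iff_ne_zero.2 hd), one_mulVec]

omit [Fintype V] [DecidableEq V] in
lemma itp_eq {r : V → ι → ℝ} {τ : ι → V} (hd : (mat r τ).det ≠ 0) {h : V → ℝ} {a : ι → ℝ}
    (ha : ∀ i, r (τ i) ⬝ᵥ a = h (τ i)) : itp r τ h = a := by
  have : (fun i => h (τ i)) = mat r τ *ᵥ a := by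
    funext i; rw [mat_mulVec, ha]
  rw [itp, this, mulVec_mulVec, nonsing_inv_mul _ (isUnit_iff_ne_zero.2 hd), one_mulVec]

omit [Fintype V] [DecidableEq V] in
lemma inj_of_det {r : V → ι → ℝ} {τ : ι → V} (hd : (mat r τ).det ≠ 0) : Function.Injective τ := by
  intro i j hij
  by_contra hne
  exact hd (det_zero_of_row_eq hne (by funext k; simp [mat, hij]))

/-- the dual vector -/
noncomputable def dual (r : V → ι → ℝ) (τ : ι → V) (j : ι) : ι → ℝ :=
  (mat r τ)⁻¹ *ᵥ (Pi.single j 1)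

omit [Fintype V] [DecidableEq V] in
lemma dual_spec {r : V → ι → ℝ} {τ : ι → V} (hd : (mat r τ).det ≠ 0) (j i : ι) :
    r (τ i) ⬝ᵥ dual r τ j = if i = j then 1 else 0 := by
  rw [← mat_mulVec, dual, mulVec_mulVec, mul_nonsing_inv _ (isUnit_iff_ne_zero.2 hd), one_mulVec]
  simp [Pi.single_apply]

omit [Fintype V] [DecidableEq V] in
lemma expand {r : V → ι → ℝ} {τ : ι → V} (hd : (mat r τ).det ≠ 0) (x : ι → ℝ) :
    x = ∑ j, (x ⬝ᵥ dual r τ j) • r (τ j) := by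
  have h1 : x = (x ᵥ* (mat r τ)⁻¹) ᵥ* mat r τ := by
    rw [vecMul_vecMul, nonsing_inv_mul _ (isUnit_iff_ne_zero.2 hd), vecMul_one]
  have h2 : ∀ j, x ⬝ᵥ dual r τ j = (x ᵥ* (mat r τ)⁻¹) j := by
    intro j
    rw [dual, dotProduct_mulVec]
    simp
  simp_rw [h2]
  conv_lhs => rw [h1]
  funext k
  simp [vecMul, dotProduct, mat, Finset.sum_apply]

omit [Fintype V] [DecidableEq V] in
lemma det_update {r : V → ι → ℝ} {τ : ι → V} (hd : (mat r τ).det ≠ 0) (j : ι) (u : V)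
    (hu : r u ⬝ᵥ dual r τ j ≠ 0) : (mat r (Function.update τ j u)).det ≠ 0 := by
  have h1 : mat r (Function.update τ j u) =
      (mat r τ).updateRow j (∑ k, (r u ⬝ᵥ dual r τ k) • (mat r τ) k) := by
    ext i k
    by_cases hij : i = j
    · subst hij
      rw [updateRow_self]
      have := expand hd (r u)
      simp only [mat, of_apply, Function.update_self]
      conv_lhs => rw [this]
      rfl
    · rw [updateRow_ne hij]
      simp [mat, Function.update_of_ne hij]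
  rw [h1, det_updateRow_sum]
  exact mul_ne_zero hu hd

omit [DecidableEq V] [DecidableEq ι] in
/-- ratio test -/
lemma ratio (r : V → ι → ℝ) (h : V → ℝ) (a b : ι → ℝ) (ha : ∀ v, r v ⬝ᵥ a ≤ h v)
    (hb : ∃ v, 0 < r v ⬝ᵥ b) :
    ∃ u, ∃ t : ℝ, 0 < r u ⬝ᵥ b ∧ t * (r u ⬝ᵥ b) = h u - r u ⬝ᵥ a ∧
      ∀ v, r v ⬝ᵥ (a + t • b) ≤ h v := by
  classical
  obtain ⟨v0, hv0⟩ := hb
  obtain ⟨u, hu, hmin⟩ := Finset.exists_min_image (univ.filter fun v => 0 < r v ⬝ᵥ b)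
    (fun v => (h v - r v ⬝ᵥ a) / (r v ⬝ᵥ b)) ⟨v0, by simp [hv0]⟩
  have hu' : 0 < r u ⬝ᵥ b := by simpa using hu
  refine ⟨u, (h u - r u ⬝ᵥ a) / (r u ⬝ᵥ b), hu', by field_simp, fun v => ?_⟩
  rw [dotProduct_add, dotProduct_smul, smul_eq_mul]
  have ht : 0 ≤ (h u - r u ⬝ᵥ a) / (r u ⬝ᵥ b) := div_nonneg (sub_nonneg.2 (ha u)) hu'.le
  by_cases hv : 0 < r v ⬝ᵥ b
  · have := hmin v (by simp [hv])
    rw [le_div_iff₀ hv] at this
    linarith
  · have := mul_nonpos_of_nonneg_of_nonpos ht (not_lt.1 hv)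
    linarith [ha v]

omit [DecidableEq V] in
lemma exists_good (r : V → ι → ℝ) (h : V → ℝ) (τ0 : ι → V) (hd0 : (mat r τ0).det ≠ 0)
    (a0 : ι → ℝ) (ha0 : ∀ v, r v ⬝ᵥ a0 ≤ h v) : ∃ τ, Good r h τ := by
  have key : ∀ J : Finset ι, ∃ τ : ι → V, ∃ a : ι → ℝ, (mat r τ).det ≠ 0 ∧
      (∀ v, r v ⬝ᵥ a ≤ h v) ∧ ∀ i ∈ J, r (τ i) ⬝ᵥ a = h (τ i) := by
    intro J
    induction J using Finset.induction_on with
    | empty => exact ⟨τ0, a0, hd0, ha0, by simp⟩
    | insert j J hj ih =>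
      obtain ⟨τ, a, hd, ha, ht⟩ := ih
      obtain ⟨u, t, hu, htu, hf⟩ := ratio r h a (dual r τ j) ha ⟨τ j, by simp [dual_spec hd]⟩
      refine ⟨Function.update τ j u, a + t • dual r τ j, det_update hd j u hu.ne', hf, ?_⟩
      intro i hi
      rw [dotProduct_add, dotProduct_smul, smul_eq_mul]
      by_cases hij : i = j
      · subst hij
        rw [Function.update_self]; linarith
      · rw [Function.update_of_ne hij, dual_spec hd, if_neg hij, mul_zero, add_zero]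
        exact ht i (by simpa [hij] using hi)
  obtain ⟨τ, a, hd, ha, ht⟩ := key univ
  refine ⟨τ, hd, ?_⟩
  rw [itp_eq hd (fun i => ht i (mem_univ i))]
  exact ha

omit [DecidableEq V] in
lemma cover {r : V → ι → ℝ} {h : V → ℝ} (hg : Generic r h) (hne : ∃ τ, Good r h τ)
    (w : V → ℝ) (hw : ∀ v, 0 ≤ w v) :
    ∃ τ, Good r h τ ∧ ∃ l : ι → ℝ, (∀ i, 0 ≤ l i) ∧ ∑ v, w v • r v = ∑ i, l i • r (τ i) := by
  classical
  set x := ∑ v, w v • r v with hx
  obtain ⟨τ, hτ, hmax⟩ := Finset.exists_max_image (univ.filter fun τ => Good r h τ)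
    (fun τ => x ⬝ᵥ itp r τ h) (by obtain ⟨τ, hτ⟩ := hne; exact ⟨τ, by simp [hτ]⟩)
  have hτ' : Good r h τ := by simpa using hτ
  obtain ⟨hd, ha⟩ := hτ'
  refine ⟨τ, ⟨hd, ha⟩, fun j => x ⬝ᵥ dual r τ j, fun j => ?_, expand hd x⟩
  by_contra hneg
  push Not at hneg
  have hb : ∃ v, 0 < r v ⬝ᵥ (-dual r τ j) := by
    by_contra hno
    push Not at hno
    have : 0 ≤ x ⬝ᵥ dual r τ j := by
      rw [hx, sum_dotProduct]
      refine Finset.sum_nonneg fun v _ => ?_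
      rw [smul_dotProduct, smul_eq_mul]
      have := hno v
      rw [dotProduct_neg] at this
      exact mul_nonneg (hw v) (by linarith)
    linarith
  obtain ⟨u, t, hu, htu, hf⟩ := ratio r h _ _ ha hb
  have hu' : r u ⬝ᵥ dual r τ j ≠ 0 := by
    rw [dotProduct_neg] at hu; linarith
  have hnr : u ∉ Set.range τ := by
    rintro ⟨i, rfl⟩
    rw [dotProduct_neg, dual_spec hd] at hu
    split_ifs at hu <;> linarith
  have hlt : r u ⬝ᵥ itp r τ h < h u := lt_of_le_of_ne (ha u) (hg τ hd u hnr)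
  have ht : 0 < t := by
    by_contra hh
    have := mul_nonpos_of_nonpos_of_nonneg (not_lt.1 hh) hu.le
    linarith
  have hd' := det_update hd j u hu'
  have he : itp r (Function.update τ j u) h = itp r τ h + t • (-dual r τ j) := by
    refine itp_eq hd' fun i => ?_
    rw [dotProduct_add, dotProduct_smul, smul_eq_mul]
    by_cases hij : i = j
    · subst hij
      rw [Function.update_self]; linarith
    · rw [Function.update_of_ne hij, dotProduct_neg, dual_spec hd, if_neg hij, itp_tight hd]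
      simp
  have := hmax (Function.update τ j u) (by
    simp only [mem_filter, mem_univ, true_and]
    exact ⟨hd', by rw [he]; exact hf⟩)
  rw [he, dotProduct_add, dotProduct_smul, smul_eq_mul, dotProduct_neg] at this
  nlinarith

omit [Fintype V] [DecidableEq V] in
lemma face {r : V → ι → ℝ} {h : V → ℝ} (hg : Generic r h) {τ σ : ι → V} (hτ : Good r h τ)
    (hσ : Good r h σ) {l m : ι → ℝ} (hl : ∀ i, 0 ≤ l i) (hm : ∀ i, 0 ≤ m i)
    (he : ∑ i, l i • r (τ i) = ∑ i, m i • r (σ i)) (i : ι) (hi : m i ≠ 0) :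
    σ i ∈ Set.range τ := by
  by_contra hn
  have hlt : r (σ i) ⬝ᵥ itp r τ h < h (σ i) := lt_of_le_of_ne (hτ.2 _) (hg τ hτ.1 _ hn)
  have e1 : (∑ i, l i • r (τ i)) ⬝ᵥ itp r σ h ≤ (∑ i, l i • r (τ i)) ⬝ᵥ itp r τ h := by
    rw [sum_dotProduct, sum_dotProduct]
    refine Finset.sum_le_sum fun k _ => ?_
    rw [smul_dotProduct, smul_dotProduct, smul_eq_mul, smul_eq_mul, itp_tight hτ.1]
    exact mul_le_mul_of_nonneg_left (hσ.2 _) (hl k)
  have e2 : (∑ i, m i • r (σ i)) ⬝ᵥ itp r τ h < (∑ i, m i • r (σ i)) ⬝ᵥ itp r σ h := by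
    rw [sum_dotProduct, sum_dotProduct]
    refine Finset.sum_lt_sum (fun k _ => ?_) ⟨i, mem_univ i, ?_⟩
    · rw [smul_dotProduct, smul_dotProduct, smul_eq_mul, smul_eq_mul, itp_tight hσ.1]
      exact mul_le_mul_of_nonneg_left (hτ.2 _) (hm k)
    · rw [smul_dotProduct, smul_dotProduct, smul_eq_mul, smul_eq_mul, itp_tight hσ.1]
      exact mul_lt_mul_of_pos_left hlt (lt_of_le_of_ne (hm i) (Ne.symm hi))
  rw [he] at e1
  linarith

end Pool.Agent.Lib.MP_7b3c84_co
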