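import Pool.Agent.Lib.MP_7b3c84_co.Upper

/-! From generic heights to a triangulation of the cube. -/

namespace Pool.Agent.Lib.MP_7b3c84_co

open Real Matrix Finset
open scoped Nat

variable {n : ℕ}

lemma mem_hull {ι : Type} [Fintype ι] (p : ι → Fin n → ℝ) (x : Fin n → ℝ) :
    x ∈ convexHull ℝ (Set.range p) ↔
      ∃ l : ι → ℝ, (∀ i, 0 ≤ l i) ∧ ∑ i, l i = 1 ∧ ∑ i, l i • p i = x := by
  constructor
  · intro hx
    refine convexHull_min (t := {x | ∃ l : ι → ℝ, (∀ i, 0 ≤ l i) ∧ ∑ i, l i = 1 ∧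
      ∑ i, l i • p i = x}) ?_ ?_ hx
    · classical
      rintro _ ⟨i, rfl⟩
      refine ⟨Pi.single i 1, fun j => ?_, by simp, ?_⟩
      · rw [Pi.single_apply]; split_ifs <;> norm_num
      · rw [Finset.sum_eq_single i] <;> simp +contextual
    · rintro _ ⟨l, hl0, hl1, rfl⟩ _ ⟨m, hm0, hm1, rfl⟩ a b ha hb hab
      refine ⟨fun i => a * l i + b * m i, fun i => by have := hl0 i; have := hm0 i; positivity,
        ?_, ?_⟩
      · rw [Finset.sum_add_distrib, ← Finset.mul_sum, ← Finset.mul_sum, hl1, hm1]; linarith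
      · simp only [add_smul, Finset.sum_add_distrib, Finset.smul_sum, mul_smul]
  · rintro ⟨l, h0, h1, rfl⟩
    exact (convex_convexHull ℝ _).sum_mem (fun i _ => h0 i) h1
      fun i _ => subset_convexHull ℝ _ ⟨i, rfl⟩

lemma sum_row {ι : Type} [Fintype ι] (τ : ι → Fin n → Bool) (l : ι → ℝ) :
    ∑ i, l i • row (τ i) = Fin.cons (∑ i, l i) (∑ i, l i • pt (τ i)) := by
  funext k
  refine Fin.cases ?_ (fun k => ?_) k <;> simp [row, Finset.sum_apply]

open Classical in
/-- vertex set of the simplex of an ordered tuple -/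
noncomputable def cell (τ : Fin (n + 1) → Fin n → Bool) : Finset (Fin n → ℝ) :=
  univ.image fun i => pt (τ i)

lemma coe_cell (τ : Fin (n + 1) → Fin n → Bool) :
    (cell τ : Set (Fin n → ℝ)) = Set.range fun i => pt (τ i) := by
  simp [cell]

lemma corner_det : ∃ τ : Fin (n + 1) → Fin n → Bool, (mat row τ).det ≠ 0 := by
  refine ⟨Fin.cons (fun _ => false) (fun j i => decide (i = j)), ?_⟩
  rw [Ne, ← Matrix.exists_mulVec_eq_zero_iff]
  rintro ⟨a, ha, h0⟩
  apply ha
  have e0 : a 0 = 0 := by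
    have := congrFun h0 0
    rw [mat_mulVec] at this
    simpa [dotProduct, Fin.sum_univ_succ, row, pt] using this
  funext k
  refine Fin.cases e0 (fun k => ?_) k
  have := congrFun h0 k.succ
  rw [mat_mulVec] at this
  simpa [dotProduct, Fin.sum_univ_succ, row, pt, e0] using this

lemma good_nonempty (h : (Fin n → Bool) → ℝ) :
    ∃ τ : Fin (n + 1) → Fin n → Bool, Good row h τ := by
  obtain ⟨τ0, h0⟩ := corner_det (n := n)
  obtain ⟨v0, -, hv0⟩ := Finset.exists_min_image univ h univ_nonempty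
  refine exists_good row h τ0 h0 (Fin.cons (h v0) 0) fun v => ?_
  simpa [dotProduct, Fin.sum_univ_succ, row] using hv0 v (mem_univ v)

lemma affInd {τ : Fin (n + 1) → Fin n → Bool} (hd : (mat row τ).det ≠ 0) :
    AffineIndependent ℝ fun i => pt (τ i) := by
  rw [affineIndependent_iff]
  intro s w hw0 hw1 i hi
  classical
  let l : Fin (n + 1) → ℝ := fun i => if i ∈ s then w i else 0
  have e1 : ∑ i, l i = 0 := by
    simp only [l]; rw [← Finset.sum_filter]; simpa using hw0
  have e2 : ∑ i, l i • pt (τ i) = 0 := by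
    simp only [l, ite_smul, zero_smul]; rw [← Finset.sum_filter]; simpa using hw1
  have e3 := sum_row τ l
  rw [e1, e2] at e3
  have e4 : l ᵥ* mat row τ = 0 := by
    funext k
    have := congrFun e3 k
    rw [Finset.sum_apply] at this
    refine Fin.cases (motive := fun k => ∑ c, (l c • row (τ c)) k =
      (Fin.cons 0 0 : Fin (n + 1) → ℝ) k → (l ᵥ* mat row τ) k = 0) ?_ (fun k => ?_) k this <;>
    · intro hh
      simpa [vecMul, dotProduct, mat] using hh
  have e5 : l = 0 := Matrix.eq_zero_of_vecMul_eq_zero hd e4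
  have := congrFun e5 i
  simpa [l, hi] using this

open Classical in
noncomputable def cells (h : (Fin n → Bool) → ℝ) : Finset (Finset (Fin n → ℝ)) :=
  (univ.filter fun τ : Fin (n + 1) → Fin n → Bool => Good row h τ).image cell

lemma mem_cells {h : (Fin n → Bool) → ℝ} {s : Finset (Fin n → ℝ)} :
    s ∈ cells h ↔ ∃ τ, Good row h τ ∧ cell τ = s := by
  simp [cells]

lemma cells_tri {h : (Fin n → Bool) → ℝ} (hg : Generic row h) : IsTriangulation n (cells h) where
  card_eq := by
    classical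
    intro s hs
    obtain ⟨τ, hτ, rfl⟩ := mem_cells.1 hs
    rw [cell, Finset.card_image_of_injective _
      (show Function.Injective fun i => pt (τ i) from pt_inj.comp (inj_of_det hτ.1))]
    simp
  indep := by
    intro s hs
    obtain ⟨τ, hτ, rfl⟩ := mem_cells.1 hs
    have := (affInd hτ.1).range
    rw [← coe_cell] at this
    exact this
  vertex := by
    intro s hs v hv i
    obtain ⟨τ, hτ, rfl⟩ := mem_cells.1 hs
    have hv' : v ∈ (cell τ : Set (Fin n → ℝ)) := hv
    rw [coe_cell] at hv'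
    obtain ⟨j, rfl⟩ := hv'
    simp only [pt]; split_ifs <;> simp
  cover := by
    apply Set.Subset.antisymm
    · refine Set.iUnion₂_subset fun s hs => convexHull_min ?_ (convex_Icc 0 1)
      obtain ⟨τ, hτ, rfl⟩ := mem_cells.1 hs
      rw [coe_cell]
      rintro _ ⟨j, rfl⟩
      constructor <;> intro i <;> simp only [pt] <;> split_ifs <;> simp
    · intro x hx
      obtain ⟨τ, hτ, l, hl, he⟩ := cover hg (good_nonempty h) (pw x) (fun v =>
        Finset.prod_nonneg fun i _ => by
          split_ifs; exact hx.1 i; exact sub_nonneg.2 (hx.2 i))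
      rw [sum_row (fun v => v), sum_row, Fin.cons_inj, pw_sum] at he
      refine Set.mem_iUnion₂.2 ⟨cell τ, mem_cells.2 ⟨τ, hτ, rfl⟩, ?_⟩
      rw [coe_cell, mem_hull]
      refine ⟨l, hl, he.1.symm, ?_⟩
      rw [← he.2]
      funext j
      have := pw_one x j (fun b => if b then 1 else 0)
      simpa [Finset.sum_apply, pt] using this
  face := by
    intro s hs t ht
    obtain ⟨τ, hτ, rfl⟩ := mem_cells.1 hs
    obtain ⟨σ, hσ, rfl⟩ := mem_cells.1 ht
    apply Set.Subset.antisymm
    · rintro x ⟨hx1, hx2⟩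
      rw [coe_cell, mem_hull] at hx1 hx2
      obtain ⟨l, hl0, hl1, hl⟩ := hx1
      obtain ⟨m, hm0, hm1, hm⟩ := hx2
      have he : ∑ i, l i • row (τ i) = ∑ i, m i • row (σ i) := by
        rw [sum_row, sum_row, hl1, hm1, hl, hm]
      have hf := face hg hτ hσ hl0 hm0 he
      classical
      rw [← hm, ← Finset.sum_filter_of_ne (p := fun i => m i ≠ 0)
        (fun i _ hi h0 => hi (by rw [h0, zero_smul]))]
      refine (convex_convexHull ℝ _).sum_mem (fun i _ => hm0 i) ?_ fun i hi => ?_
      · rw [Finset.sum_filter_ne_zero, hm1]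
      · refine subset_convexHull ℝ _ ?_
        rw [coe_cell, coe_cell]
        obtain ⟨j, hj⟩ := hf i (Finset.mem_filter.1 hi).2
        exact ⟨⟨j, by simp only [hj]⟩, ⟨i, rfl⟩⟩
    · exact Set.subset_inter (convexHull_mono Set.inter_subset_left)
        (convexHull_mono Set.inter_subset_right)

lemma good_perm {h : (Fin n → Bool) → ℝ} {τ : Fin (n + 1) → Fin n → Bool} (hτ : Good row h τ)
    (σ : Equiv.Perm (Fin (n + 1))) : Good row h (τ ∘ σ) := by
  have hd : (mat row (τ ∘ σ)).det ≠ 0 := by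
    have : mat row (τ ∘ σ) = (mat row τ).submatrix σ id := rfl
    rw [this, det_permute]
    refine mul_ne_zero ?_ hτ.1
    rcases Int.units_eq_one_or (Equiv.Perm.sign σ) with h1 | h1 <;> simp [h1]
  refine ⟨hd, ?_⟩
  rw [itp_eq hd (a := itp row τ h) fun i => itp_tight hτ.1 h (σ i)]
  exact hτ.2

lemma card_cells (h : (Fin n → Bool) → ℝ) : (n + 1)! * (cells h).card ≤ cnt row h := by
  classical
  unfold cells cnt
  refine Finset.mul_card_image_le_card _ _ fun s hs => ?_
  obtain ⟨τ, hτ, rfl⟩ := Finset.mem_image.1 hs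
  have hτ' : Good row h τ := (Finset.mem_filter.1 hτ).2
  have hc : (n + 1)! = (univ : Finset (Equiv.Perm (Fin (n + 1)))).card := by
    simp [Fintype.card_perm]
  rw [hc]
  refine Finset.card_le_card_of_injOn (fun σ => τ ∘ σ) (fun σ _ => ?_) fun σ _ ρ _ he => ?_
  · simp only [Finset.coe_filter, Finset.mem_filter, mem_univ, true_and, Set.mem_ofPred_eq]
    refine ⟨good_perm hτ' σ, ?_⟩
    apply Finset.coe_injective
    rw [coe_cell, coe_cell]
    exact σ.surjective.range_comp (fun i => pt (τ i))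
  · exact Equiv.ext fun i => inj_of_det hτ'.1 (congrFun he i)

theorem upper (n : ℕ) :
    ∃ T, IsTriangulation n T ∧ (T.card : ℝ) ≤ π ^ n * √((n ! : ℝ) / (n + 1)) := by
  obtain ⟨h, hg, hc⟩ := exists_small_cube n
  refine ⟨cells h, cells_tri hg, ?_⟩
  have h1 : (((n + 1)! : ℕ) : ℝ) * (cells h).card ≤ cnt row h := by exact_mod_cast card_cells h
  have hp : (0 : ℝ) < ((n + 1)! : ℕ) := by positivity
  have h2 : √((n ! : ℝ) / (n + 1)) * ((n + 1)! : ℕ) = √((n + 1)!) * n ! := by
    have hq : (0 : ℝ) < (n ! : ℕ) := by positivity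
    refine (sq_eq_sq₀ (by positivity) (by positivity)).1 ?_
    rw [mul_pow, mul_pow, sq_sqrt (by positivity), sq_sqrt hp.le, Nat.factorial_succ]
    push_cast; field_simp
  refine le_of_mul_le_mul_left ?_ hp
  calc _ ≤ √((n + 1)!) * π ^ n * n ! := h1.trans hc
    _ = π ^ n * (√((n + 1)!) * n !) := by ring
    _ = _ := by rw [← h2]; ring

end Pool.Agent.Lib.MP_7b3c84_co
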