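import Pool.Agent.Lib.MP_7b3c84_co.Expect
import Pool.Agent.Lib.MP_7b3c84_co.Defs

/-! The upper bound: a regular triangulation of the cube with few simplices. -/

namespace Pool.Agent.Lib.MP_7b3c84_co

open MeasureTheory Real Matrix Finset
open scoped ENNReal Nat

variable {n : ℕ}

def pt (v : Fin n → Bool) : Fin n → ℝ := fun i => if v i then 1 else 0

def row (v : Fin n → Bool) : Fin (n + 1) → ℝ := Fin.cons 1 (pt v)

lemma pt_inj : Function.Injective (pt : (Fin n → Bool) → Fin n → ℝ) := by
  intro v w h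
  funext i
  have := congrFun h i
  simp only [pt] at this
  cases hv : v i <;> cases hw : w i <;> simp_all

lemma sum_prod_bool (g : Fin n → Bool → ℝ) :
    ∑ v : Fin n → Bool, ∏ i, g i (v i) = ∏ i, (g i true + g i false) := by
  have := Finset.prod_univ_sum (fun _ : Fin n => (univ : Finset Bool)) g
  simp only [Fintype.piFinset_univ, Fintype.sum_bool] at this
  exact this.symm

/-- product probability weights -/
def pw (q : Fin n → ℝ) (v : Fin n → Bool) : ℝ := ∏ i, if v i then q i else 1 - q i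

lemma pw_exp (q : Fin n → ℝ) (g : Fin n → Bool → ℝ) :
    ∑ v, pw q v * ∏ i, g i (v i) = ∏ i, (q i * g i true + (1 - q i) * g i false) := by
  simp_rw [pw, ← Finset.prod_mul_distrib]
  rw [sum_prod_bool (fun i b => (if b then q i else 1 - q i) * g i b)]
  simp

lemma pw_sum (q : Fin n → ℝ) : ∑ v, pw q v = 1 := by
  have := pw_exp q (fun _ _ => 1)
  simpa using this

lemma pw_one (q : Fin n → ℝ) (j : Fin n) (f : Bool → ℝ) :
    ∑ v, pw q v * f (v j) = q j * f true + (1 - q j) * f false := by
  have := pw_exp q (fun i b => if i = j then f b else 1)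
  simp only [Finset.prod_ite_eq', mem_univ, if_true] at this
  rw [this, Finset.prod_eq_single j]
  · simp
  · intro i _ hi; simp [hi]
  · simp

lemma pw_two (q : Fin n → ℝ) {j k : Fin n} (hjk : j ≠ k) (f g : Bool → ℝ) :
    ∑ v, pw q v * (f (v j) * g (v k)) =
      (q j * f true + (1 - q j) * f false) * (q k * g true + (1 - q k) * g false) := by
  have := pw_exp q (fun i b => (if i = j then f b else 1) * (if i = k then g b else 1))
  simp only [Finset.prod_mul_distrib, Finset.prod_ite_eq', mem_univ, if_true] at this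
  rw [this, Finset.prod_eq_mul j k hjk]
  · simp [hjk, hjk.symm]
  · intro i _ hi; simp [hi.1, hi.2]
  · simp
  · simp

/-- centred rows -/
def crow (q : Fin n → ℝ) (v : Fin n → Bool) : Fin (n + 1) → ℝ := Fin.cons 1 (pt v - q)

lemma det_crow (q : Fin n → ℝ) (τ : Fin (n + 1) → Fin n → Bool) :
    (mat row τ).det = (mat (crow q) τ).det := by
  rw [← det_transpose (mat row τ), ← det_transpose (mat (crow q) τ)]
  refine det_eq_of_forall_row_eq_smul_add_const (Fin.cons 0 q) 0 rfl fun i j => ?_
  refine Fin.cases ?_ (fun i => ?_) i <;> simp [mat, row, crow]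

lemma crow_orth (q : Fin n → ℝ) (j k : Fin (n + 1)) :
    ∑ v, pw q v * (crow q v j * crow q v k) =
      if j = k then (Fin.cons 1 (fun i => q i * (1 - q i)) : Fin (n + 1) → ℝ) j else 0 := by
  refine Fin.cases ?_ (fun j => ?_) j <;> refine Fin.cases ?_ (fun k => ?_) k
  · simp [crow, pw_sum]
  · have := pw_one q k (fun b => (if b then 1 else 0) - q k)
    simp only [crow, Fin.cons_zero, Fin.cons_succ, Pi.sub_apply, pt, one_mul, this,
      (Fin.succ_ne_zero k).symm, if_false]
    simp; ring
  · have := pw_one q j (fun b => (if b then 1 else 0) - q j)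
    simp only [crow, Fin.cons_zero, Fin.cons_succ, Pi.sub_apply, pt, mul_one, this,
      (Fin.succ_ne_zero j), if_false]
    simp; ring
  · by_cases hjk : j = k
    · subst hjk
      have := pw_one q j (fun b => ((if b then 1 else 0) - q j) * ((if b then 1 else 0) - q j))
      simp only [crow, Fin.cons_succ, Pi.sub_apply, pt, this, if_true]
      simp; ring
    · have := pw_two q hjk (fun b => (if b then 1 else 0) - q j)
        (fun b => (if b then 1 else 0) - q k)
      simp only [crow, Fin.cons_succ, Pi.sub_apply, pt, this, Fin.succ_inj, hjk, if_false]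
      simp; left; ring

lemma sum_abs_det (q : Fin n → ℝ) (h0 : ∀ i, 0 ≤ q i) (h1 : ∀ i, q i ≤ 1) :
    ∑ τ : Fin (n + 1) → Fin n → Bool, |(mat row τ).det| * ∏ i, pw q (τ i) ≤
      √((n + 1)!) * ∏ j, √(q j * (1 - q j)) := by
  have hp : ∀ v, 0 ≤ pw q v := fun v => Finset.prod_nonneg fun i _ => by
    split_ifs; exact h0 i; linarith [h1 i]
  have hP : ∀ τ : Fin (n + 1) → Fin n → Bool, 0 ≤ ∏ i, pw q (τ i) :=
    fun τ => Finset.prod_nonneg fun i _ => hp _
  have e1 : ∑ τ : Fin (n + 1) → Fin n → Bool, ∏ i, pw q (τ i) = 1 := by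
    have := Finset.prod_univ_sum (fun _ : Fin (n + 1) => (univ : Finset (Fin n → Bool)))
      (fun _ v => pw q v)
    simp only [Fintype.piFinset_univ, pw_sum] at this
    simpa using this.symm
  have e2 := sum_det_sq (crow q) (pw q) _ (crow_orth q)
  simp only [← det_crow, Fintype.card_fin, Fin.prod_univ_succ, Fin.cons_zero, Fin.cons_succ,
    one_mul] at e2
  have cs := Finset.sum_sq_le_sum_mul_sum_of_sq_le_mul univ
    (r := fun τ : Fin (n + 1) → Fin n → Bool => |(mat row τ).det| * ∏ i, pw q (τ i))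
    (f := fun τ => ∏ i, pw q (τ i)) (g := fun τ => (∏ i, pw q (τ i)) * (mat row τ).det ^ 2)
    (fun τ _ => hP τ) (fun τ _ => mul_nonneg (hP τ) (sq_nonneg _))
    (fun τ _ => le_of_eq (by rw [mul_pow, sq_abs]; ring))
  simp only [Fin.prod_univ_succ] at cs e1 ⊢
  rw [e1, e2, one_mul] at cs
  refine (le_sqrt_of_sq_le cs).trans (le_of_eq ?_)
  rw [sqrt_mul (by positivity), Real.sqrt_prod _ fun j _ => mul_nonneg (h0 j) (by linarith [h1 j])]

lemma exp_row (s : ℝ) (x : Fin n → ℝ) (v : Fin n → Bool) :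
    exp (row v ⬝ᵥ Fin.cons s x) =
      (exp s * ∏ j, (1 + exp (x j))) * pw (fun j => exp (x j) / (1 + exp (x j))) v := by
  rw [dotProduct, Fin.sum_univ_succ, exp_add, exp_sum, pw, mul_assoc, ← Finset.prod_mul_distrib]
  simp only [row, Fin.cons_zero, Fin.cons_succ, one_mul, pt]
  congr 1
  refine Finset.prod_congr rfl fun j _ => ?_
  have := exp_pos (x j)
  split_ifs
  · rw [one_mul]; field_simp
  · rw [zero_mul, exp_zero]; field_simp; ring

lemma integrand_le (s : ℝ) (x : Fin n → ℝ) :
    exp (-∑ v, exp (row v ⬝ᵥ Fin.cons s x)) *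
      ∑ τ : Fin (n + 1) → Fin n → Bool, |(mat row τ).det| * ∏ i, exp (row (τ i) ⬝ᵥ Fin.cons s x)
      ≤ (√((n + 1)!) * ∏ j, (exp (x j / 2) / (1 + exp (x j)))) *
        (exp (-(exp s * ∏ j, (1 + exp (x j)))) * (exp s * ∏ j, (1 + exp (x j))) ^ (n + 1)) := by
  simp_rw [exp_row]
  set L := exp s * ∏ j, (1 + exp (x j)) with hL
  have hL0 : 0 < L := by positivity
  set q : Fin n → ℝ := fun j => exp (x j) / (1 + exp (x j)) with hq
  have hb := sum_abs_det q (fun j => by positivity)
    (fun j => by rw [hq]; exact (div_le_one (by positivity)).2 (by linarith))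
  have hs : ∀ j, √(q j * (1 - q j)) = exp (x j / 2) / (1 + exp (x j)) := by
    intro j
    have h2 : exp (x j / 2) ^ 2 = exp (x j) := by rw [← exp_nat_mul]; congr 1; push_cast; ring
    rw [sqrt_eq_iff_mul_self_eq (by
      refine mul_nonneg (by positivity) ?_
      rw [sub_nonneg, hq]; exact (div_le_one (by positivity)).2 (by linarith)) (by positivity)]
    simp only [hq]
    have := exp_pos (x j)
    field_simp
    rw [h2]; ring
  simp only [hs] at hb
  rw [← Finset.mul_sum, pw_sum, mul_one]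
  simp only [Finset.prod_mul_distrib, Finset.prod_const, card_univ, Fintype.card_fin]
  have : ∑ τ : Fin (n + 1) → Fin n → Bool, |(mat row τ).det| * (L ^ (n + 1) * ∏ i, pw q (τ i)) =
      L ^ (n + 1) * ∑ τ : Fin (n + 1) → Fin n → Bool, |(mat row τ).det| * ∏ i, pw q (τ i) := by
    rw [Finset.mul_sum]; exact Finset.sum_congr rfl fun _ _ => by ring
  rw [this]
  calc _ = (exp (-L) * L ^ (n + 1)) *
        ∑ τ : Fin (n + 1) → Fin n → Bool, |(mat row τ).det| * ∏ i, pw q (τ i) := by ring
    _ ≤ (exp (-L) * L ^ (n + 1)) * (√((n + 1)!) * ∏ j, (exp (x j / 2) / (1 + exp (x j)))) := by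
      gcongr
    _ = _ := by ring

lemma exists_small_cube (n : ℕ) : ∃ h, Generic (row (n := n)) h ∧
    (cnt (row (n := n)) h : ℝ) ≤ √((n + 1)!) * π ^ n * n ! := by
  obtain ⟨h, hg, hc⟩ := exists_small (row (n := n))
  refine ⟨h, hg, ?_⟩
  have hm := (volume_preserving_piFinSuccAbove (fun _ : Fin (n + 1) => ℝ) 0).symm
  rw [← hm.lintegral_comp_emb (MeasurableEquiv.measurableEmbedding _)] at hc
  simp only [MeasurableEquiv.piFinSuccAbove_symm_apply, Fin.insertNthEquiv,
      Fin.insertNth_zero', Equiv.coe_fn_mk] at hc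
  have hsw := (Measure.measurePreserving_swap (μ := (volume : Measure (Fin n → ℝ)))
    (ν := (volume : Measure ℝ)))
  rw [Measure.volume_eq_prod, ← hsw.lintegral_comp_emb MeasurableEquiv.prodComm.measurableEmbedding]
    at hc
  have h2 := hc.trans ((lintegral_prod_le _).trans (lintegral_mono fun x => lintegral_mono fun s =>
    ENNReal.ofReal_le_ofReal (integrand_le s x)))
  have h3 : ∀ x : Fin n → ℝ, ∫⁻ s : ℝ, ENNReal.ofReal
      ((√((n + 1)!) * ∏ j, (exp (x j / 2) / (1 + exp (x j)))) *
        (exp (-(exp s * ∏ j, (1 + exp (x j)))) * (exp s * ∏ j, (1 + exp (x j))) ^ (n + 1))) =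
      (ENNReal.ofReal √((n + 1)!) * n !) *
        ∏ j, ENNReal.ofReal (exp (x j / 2) / (1 + exp (x j))) := by
    intro x
    simp_rw [ENNReal.ofReal_mul (p := √((n + 1)!) * ∏ j, (exp (x j / 2) / (1 + exp (x j))))
      (by positivity)]
    rw [lintegral_const_mul' _ _ ENNReal.ofReal_ne_top, lint_gamma_shift n (by positivity),
      ENNReal.ofReal_mul (by positivity),
      ENNReal.ofReal_prod_of_nonneg (fun _ _ => by positivity)]
    ring
  simp_rw [h3] at h2
  rw [lintegral_const_mul' _ _ (ENNReal.mul_ne_top ENNReal.ofReal_ne_top (ENNReal.natCast_ne_top _)),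
    lint_prod (fun _ (t : ℝ) => ENNReal.ofReal (exp (t / 2) / (1 + exp t)))
      (fun _ => by fun_prop)] at h2
  simp only [lint_pi, Finset.prod_const, card_univ, Fintype.card_fin] at h2
  rw [← ENNReal.ofReal_natCast, ← ENNReal.ofReal_natCast (n !), ← ENNReal.ofReal_pow pi_pos.le,
    ← ENNReal.ofReal_mul (by positivity), ← ENNReal.ofReal_mul (by positivity),
    ENNReal.ofReal_le_ofReal_iff (by positivity)] at h2
  linarith

end Pool.Agent.Lib.MP_7b3c84_co
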